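import Mathlib
import Pool.Agent.Helper27.MC.Base

/-! ISO: final colourings give isomorphic halves. -/

set_option autoImplicit false
set_option linter.unusedSectionVars false

namespace Pool.Agent.Helper88.MC

open Pool.Agent.Helper27.MC

variable {V : Type} [Fintype V] [DecidableEq V] (G : SimpleGraph V) [DecidableRel G.Adj]

/-- monochromatic adjacency -/
def Rm (c : V → Bool) (x y : V) : Prop := G.Adj x y ∧ c y = c x

variable {G}

theorem Rm.symm {c : V → Bool} {x y : V} (h : Rm G c x y) : Rm G c y x := ⟨h.1.symm, h.2.symm⟩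

theorem Rm.ne {c : V → Bool} {x y : V} (h : Rm G c x y) : x ≠ y := h.1.ne

theorem mu_zero {c : V → Bool} {v : V} (h : mu G c v = 0) : ∀ y, ¬ Rm G c v y := by
  intro y hy
  unfold mu at h
  rw [Finset.card_eq_zero] at h
  have : y ∈ Finset.univ.filter (fun w => G.Adj v w ∧ c w = c v) := by
    simp only [Finset.mem_filter, Finset.mem_univ, true_and]
    exact hy
  rw [h] at this
  exact absurd this (Finset.notMem_empty y)

theorem mu_one {c : V → Bool} {v : V} (h : mu G c v = 1) : ∃ a, ∀ y, Rm G c v y ↔ y = a := by
  unfold mu at h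
  obtain ⟨a, ha⟩ := Finset.card_eq_one.1 h
  refine ⟨a, fun y => ?_⟩
  have : y ∈ Finset.univ.filter (fun w => G.Adj v w ∧ c w = c v) ↔ y ∈ ({a} : Finset V) := by rw [ha]
  simp only [Finset.mem_filter, Finset.mem_univ, true_and, Finset.mem_singleton] at this
  exact this

theorem mu_two {c : V → Bool} {v : V} (h : mu G c v = 2) : ∃ a b, a ≠ b ∧ ∀ y, Rm G c v y ↔ y = a ∨ y = b := by
  unfold mu at h
  obtain ⟨a, b, hab, ha⟩ := Finset.card_eq_two.1 h
  refine ⟨a, b, hab, fun y => ?_⟩
  have : y ∈ Finset.univ.filter (fun w => G.Adj v w ∧ c w = c v) ↔ y ∈ ({a, b} : Finset V) := by rw [ha]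
  simp only [Finset.mem_filter, Finset.mem_univ, true_and, Finset.mem_singleton, Finset.mem_insert] at this
  exact this

/-- closed sets -/
def Cl (c : V → Bool) (G : SimpleGraph V) (U : Finset V) : Prop := ∀ x ∈ U, ∀ y, Rm G c x y → y ∈ U

/-- adjacency preserving bijections -/
def Ok (c : V → Bool) (G : SimpleGraph V) (f : V → V) (U W : Finset V) : Prop :=
  Set.BijOn f U W ∧ ∀ x ∈ U, ∀ y ∈ U, (Rm G c x y ↔ Rm G c (f x) (f y))

theorem Cl.sdiff {c : V → Bool} {U K : Finset V} (hU : Cl c G U) (hK : Cl c G K) : Cl c G (U \ K) := by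
  intro x hx y hy
  rw [Finset.mem_sdiff] at hx ⊢
  exact ⟨hU x hx.1 y hy, fun h => hx.2 (hK y h x hy.symm)⟩

/-- extension of bijections -/
theorem ext {c : V → Bool} {U W K L : Finset V} (hK : K ⊆ U) (hL : L ⊆ W) (cK : Cl c G K) (cL : Cl c G L)
    {f g : V → V} (hf : Ok c G f (U \ K) (W \ L)) (hg : Ok c G g K L) : ∃ h, Ok c G h U W := by
  obtain ⟨bf, af⟩ := hf
  obtain ⟨bg, ag⟩ := hg
  have mf : ∀ x, x ∈ U → x ∉ K → f x ∈ W ∧ f x ∉ L := by
    intro x hx hxK
    have := bf.mapsTo (show x ∈ ((U \ K : Finset V) : Set V) by simp [hx, hxK])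
    simpa using this
  have mg : ∀ x, x ∈ K → g x ∈ L := by
    intro x hx
    exact bg.mapsTo hx
  refine ⟨fun x => if x ∈ K then g x else f x, ⟨?_, ?_, ?_⟩, ?_⟩
  · intro x hx
    have hx' : x ∈ U := hx
    beta_reduce
    split_ifs with h
    · exact hL (mg x h)
    · exact (mf x hx' h).1
  · intro x hx y hy hxy
    have hx' : x ∈ U := hx
    have hy' : y ∈ U := hy
    beta_reduce at hxy
    split_ifs at hxy with h1 h2 h2
    · exact bg.injOn h1 h2 hxy
    · exact absurd (hxy ▸ mg x h1) (mf y hy' h2).2
    · exact absurd (hxy ▸ mg y h2) (mf x hx' h1).2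
    · exact bf.injOn (by simp [hx', h1]) (by simp [hy', h2]) hxy
  · intro y hy
    have hy' : y ∈ W := hy
    by_cases h : y ∈ L
    · obtain ⟨x, hx, rfl⟩ := bg.surjOn (show y ∈ ((L : Finset V) : Set V) from h)
      have hx' : x ∈ K := hx
      exact ⟨x, hK hx', by simp [hx']⟩
    · obtain ⟨x, hx, rfl⟩ := bf.surjOn (show y ∈ ((W \ L : Finset V) : Set V) by simp [hy', h])
      have hx' : x ∈ U \ K := hx
      rw [Finset.mem_sdiff] at hx'
      exact ⟨x, hx'.1, by simp [hx'.2]⟩
  · intro x hx y hy
    beta_reduce
    split_ifs with h1 h2 h2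
    · exact ag x h1 y h2
    · constructor
      · intro h
        exact absurd (cK x h1 y h) h2
      · intro h
        exact absurd (cL _ (mg x h1) _ h) (mf y hy h2).2
    · constructor
      · intro h
        exact absurd (cK y h2 x h.symm) h1
      · intro h
        exact absurd (cL _ (mg y h2) _ h.symm) (mf x hx h1).2
    · exact af x (by simp [hx, h1]) y (by simp [hy, h2])

theorem cnt {U K : Finset V} (hK : K ⊆ U) (p : V → Prop) [DecidablePred p] :
    ((U \ K).filter p).card + (K.filter p).card = (U.filter p).card := by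
  rw [← Finset.card_union_of_disjoint, ← Finset.filter_union, Finset.sdiff_union_of_subset hK]
  exact Finset.disjoint_filter_filter Finset.sdiff_disjoint

theorem main {c : V → Bool} (h2 : ∀ v, mu G c v ≤ 2)
    (hl : ∀ v w, mu G c v = 2 → G.Adj v w → c w = c v → mu G c w = 1) :
    ∀ (n : ℕ) (U W : Finset V), U.card = n → W.card = n → Cl c G U → Cl c G W →
      (U.filter (fun v => mu G c v = 2)).card = (W.filter (fun v => mu G c v = 2)).card →
      (U.filter (fun v => mu G c v = 1)).card = (W.filter (fun v => mu G c v = 1)).card →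
      ∃ f, Ok c G f U W := by
  intro n
  induction n using Nat.strong_induction_on with
  | _ n ih =>
  intro U W hU hW cU cW e2 e1
  -- one step
  have step : ∀ (K L : Finset V), K ⊆ U → L ⊆ W → K.Nonempty → K.card = L.card → Cl c G K → Cl c G L →
      (K.filter (fun v => mu G c v = 2)).card = (L.filter (fun v => mu G c v = 2)).card →
      (K.filter (fun v => mu G c v = 1)).card = (L.filter (fun v => mu G c v = 1)).card →
      (∃ g, Ok c G g K L) → ∃ f, Ok c G f U W := by
    intro K L hK hL hne hc cK cL k2 k1 ⟨g, hg⟩
    have a1 := Finset.card_sdiff_add_card_eq_card hK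
    have a2 := Finset.card_sdiff_add_card_eq_card hL
    have a3 : 0 < K.card := hne.card_pos
    have b1 := cnt hK (fun v => mu G c v = 2)
    have b2 := cnt hL (fun v => mu G c v = 2)
    have b3 := cnt hK (fun v => mu G c v = 1)
    have b4 := cnt hL (fun v => mu G c v = 1)
    obtain ⟨f, hf⟩ := ih (U \ K).card (by omega) (U \ K) (W \ L) rfl (by omega) (cU.sdiff cK) (cW.sdiff cL)
      (by omega) (by omega)
    exact ext hK hL cK cL hf hg
  have sy1 : ∀ {v a : V}, Rm G c v a → mu G c a = 1 → ∀ y, Rm G c a y ↔ y = v := by
    intro v a hva ha y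
    obtain ⟨b, hb⟩ := mu_one ha
    have : v = b := (hb v).1 hva.symm
    rw [hb y, this]
  by_cases hc2 : ∃ v ∈ U, mu G c v = 2
  · obtain ⟨v, hv, hv2⟩ := hc2
    obtain ⟨v', hv', hv2'⟩ : ∃ v' ∈ W, mu G c v' = 2 := by
      have : 0 < (W.filter (fun v => mu G c v = 2)).card := by
        rw [← e2]
        exact Finset.card_pos.2 ⟨v, by simp [hv, hv2]⟩
      obtain ⟨v', hv'⟩ := Finset.card_pos.1 this
      rw [Finset.mem_filter] at hv'
      exact ⟨v', hv'.1, hv'.2⟩
    obtain ⟨a, b, hab, hR⟩ := mu_two hv2
    obtain ⟨a', b', hab', hR'⟩ := mu_two hv2'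
    have ra : Rm G c v a := (hR a).2 (Or.inl rfl)
    have rb : Rm G c v b := (hR b).2 (Or.inr rfl)
    have ra' : Rm G c v' a' := (hR' a').2 (Or.inl rfl)
    have rb' : Rm G c v' b' := (hR' b').2 (Or.inr rfl)
    have ma : mu G c a = 1 := hl v a hv2 ra.1 ra.2
    have mb : mu G c b = 1 := hl v b hv2 rb.1 rb.2
    have ma' : mu G c a' = 1 := hl v' a' hv2' ra'.1 ra'.2
    have mb' : mu G c b' = 1 := hl v' b' hv2' rb'.1 rb'.2
    have sa := sy1 ra ma
    have sb := sy1 rb mb
    have sa' := sy1 ra' ma'
    have sb' := sy1 rb' mb'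
    have nva := ra.ne
    have nvb := rb.ne
    have nva' := ra'.ne
    have nvb' := rb'.ne
    refine step {v, a, b} {v', a', b'} ?_ ?_ ⟨v, by simp⟩ ?_ ?_ ?_ ?_ ?_ ?_
    · intro x hx
      simp only [Finset.mem_insert, Finset.mem_singleton] at hx
      rcases hx with rfl | rfl | rfl
      · exact hv
      · exact cU _ hv _ ra
      · exact cU _ hv _ rb
    · intro x hx
      simp only [Finset.mem_insert, Finset.mem_singleton] at hx
      rcases hx with rfl | rfl | rfl
      · exact hv'
      · exact cW _ hv' _ ra'
      · exact cW _ hv' _ rb'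
    · rw [Finset.card_eq_three.2 ⟨v, a, b, nva, nvb, hab, rfl⟩, Finset.card_eq_three.2 ⟨v', a', b', nva', nvb', hab', rfl⟩]
    · intro x hx y hy
      simp only [Finset.mem_insert, Finset.mem_singleton] at hx ⊢
      rcases hx with rfl | rfl | rfl
      · rcases (hR y).1 hy with h | h <;> simp [h]
      · simp [(sa y).1 hy]
      · simp [(sb y).1 hy]
    · intro x hx y hy
      simp only [Finset.mem_insert, Finset.mem_singleton] at hx ⊢
      rcases hx with rfl | rfl | rfl
      · rcases (hR' y).1 hy with h | h <;> simp [h]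
      · simp [(sa' y).1 hy]
      · simp [(sb' y).1 hy]
    · rw [show ({v, a, b} : Finset V).filter (fun v => mu G c v = 2) = {v} by
        ext x; simp only [Finset.mem_filter, Finset.mem_insert, Finset.mem_singleton]
        constructor
        · rintro ⟨rfl | rfl | rfl, h⟩
          · rfl
          · omega
          · omega
        · rintro rfl; exact ⟨Or.inl rfl, hv2⟩,
        show ({v', a', b'} : Finset V).filter (fun v => mu G c v = 2) = {v'} by
        ext x; simp only [Finset.mem_filter, Finset.mem_insert, Finset.mem_singleton]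
        constructor
        · rintro ⟨rfl | rfl | rfl, h⟩
          · rfl
          · omega
          · omega
        · rintro rfl; exact ⟨Or.inl rfl, hv2'⟩]
      simp
    · rw [show ({v, a, b} : Finset V).filter (fun v => mu G c v = 1) = {a, b} by
        ext x; simp only [Finset.mem_filter, Finset.mem_insert, Finset.mem_singleton]
        constructor
        · rintro ⟨rfl | rfl | rfl, h⟩
          · omega
          · simp
          · simp
        · rintro (rfl | rfl)
          · exact ⟨by simp, ma⟩
          · exact ⟨by simp, mb⟩,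
        show ({v', a', b'} : Finset V).filter (fun v => mu G c v = 1) = {a', b'} by
        ext x; simp only [Finset.mem_filter, Finset.mem_insert, Finset.mem_singleton]
        constructor
        · rintro ⟨rfl | rfl | rfl, h⟩
          · omega
          · simp
          · simp
        · rintro (rfl | rfl)
          · exact ⟨by simp, ma'⟩
          · exact ⟨by simp, mb'⟩, Finset.card_pair hab, Finset.card_pair hab']
    · refine ⟨fun x => if x = v then v' else if x = a then a' else b', ⟨?_, ?_, ?_⟩, ?_⟩
      · intro x hx
        beta_reduce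
        split_ifs <;> simp
      · intro x hx y hy hxy
        have hx' : x = v ∨ x = a ∨ x = b := by simpa using hx
        have hy' : y = v ∨ y = a ∨ y = b := by simpa using hy
        beta_reduce at hxy
        grind
      · intro y hy
        have hy' : y = v' ∨ y = a' ∨ y = b' := by simpa using hy
        rcases hy' with rfl | rfl | rfl
        · exact ⟨v, by simp, by simp⟩
        · exact ⟨a, by simp, by simp [nva.symm]⟩
        · exact ⟨b, by simp, by simp [nvb.symm, hab.symm]⟩
      · intro x hx y hy
        have hx' : x = v ∨ x = a ∨ x = b := by simpa using hx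
        have hy' : y = v ∨ y = a ∨ y = b := by simpa using hy
        beta_reduce
        rcases hx' with rfl | rfl | rfl
        · rw [hR y, if_pos rfl, hR']
          grind
        · rw [sa y, if_neg nva.symm, if_pos rfl, sa']
          grind
        · rw [sb y, if_neg nvb.symm, if_neg hab.symm, sb']
          grind
  · push Not at hc2
    have hc2' : ∀ v ∈ W, mu G c v ≠ 2 := by
      intro v hv h
      have : 0 < (U.filter (fun v => mu G c v = 2)).card := by
        rw [e2]
        exact Finset.card_pos.2 ⟨v, by simp [hv, h]⟩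
      obtain ⟨v', hv'⟩ := Finset.card_pos.1 this
      rw [Finset.mem_filter] at hv'
      exact hc2 v' hv'.1 hv'.2
    have pr : ∀ (U : Finset V), Cl c G U → (∀ v ∈ U, mu G c v ≠ 2) → ∀ v ∈ U, mu G c v = 1 →
        ∃ a, a ∈ U ∧ a ≠ v ∧ mu G c a = 1 ∧ (∀ y, Rm G c v y ↔ y = a) ∧ ∀ y, Rm G c a y ↔ y = v := by
      intro U cU hU v hv hv1
      obtain ⟨a, ha⟩ := mu_one hv1
      have ra := (ha a).2 rfl
      have haU := cU v hv a ra
      have m1 : mu G c a = 1 := by
        have h3 := h2 a
        have h4 := hU a haU
        have h5 : mu G c a ≠ 0 := fun h => mu_zero h v ra.symm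
        omega
      exact ⟨a, haU, ra.ne.symm, m1, ha, sy1 ra m1⟩
    by_cases hc1 : ∃ v ∈ U, mu G c v = 1
    · obtain ⟨v, hv, hv1⟩ := hc1
      obtain ⟨v', hv', hv1'⟩ : ∃ v' ∈ W, mu G c v' = 1 := by
        have : 0 < (W.filter (fun v => mu G c v = 1)).card := by
          rw [← e1]
          exact Finset.card_pos.2 ⟨v, by simp [hv, hv1]⟩
        obtain ⟨v', hv'⟩ := Finset.card_pos.1 this
        rw [Finset.mem_filter] at hv'
        exact ⟨v', hv'.1, hv'.2⟩
      obtain ⟨a, haU, nav, ma, hR, sa⟩ := pr U cU hc2 v hv hv1
      obtain ⟨a', haU', nav', ma', hR', sa'⟩ := pr W cW hc2' v' hv' hv1'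
      refine step {v, a} {v', a'} ?_ ?_ ⟨v, by simp⟩ ?_ ?_ ?_ ?_ ?_ ?_
      · intro x hx
        simp only [Finset.mem_insert, Finset.mem_singleton] at hx
        rcases hx with rfl | rfl
        · exact hv
        · exact haU
      · intro x hx
        simp only [Finset.mem_insert, Finset.mem_singleton] at hx
        rcases hx with rfl | rfl
        · exact hv'
        · exact haU'
      · rw [Finset.card_pair nav.symm, Finset.card_pair nav'.symm]
      · intro x hx y hy
        simp only [Finset.mem_insert, Finset.mem_singleton] at hx ⊢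
        rcases hx with rfl | rfl
        · simp [(hR y).1 hy]
        · simp [(sa y).1 hy]
      · intro x hx y hy
        simp only [Finset.mem_insert, Finset.mem_singleton] at hx ⊢
        rcases hx with rfl | rfl
        · simp [(hR' y).1 hy]
        · simp [(sa' y).1 hy]
      · rw [show ({v, a} : Finset V).filter (fun v => mu G c v = 2) = ∅ by
          ext x; simp only [Finset.mem_filter, Finset.mem_insert, Finset.mem_singleton, Finset.notMem_empty, iff_false]
          rintro ⟨rfl | rfl, h⟩ <;> omega,
          show ({v', a'} : Finset V).filter (fun v => mu G c v = 2) = ∅ by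
          ext x; simp only [Finset.mem_filter, Finset.mem_insert, Finset.mem_singleton, Finset.notMem_empty, iff_false]
          rintro ⟨rfl | rfl, h⟩ <;> omega]
      · rw [show ({v, a} : Finset V).filter (fun v => mu G c v = 1) = {v, a} by
          ext x; simp only [Finset.mem_filter, Finset.mem_insert, Finset.mem_singleton]
          constructor
          · exact fun h => h.1
          · rintro (rfl | rfl)
            · exact ⟨by simp, hv1⟩
            · exact ⟨by simp, ma⟩,
          show ({v', a'} : Finset V).filter (fun v => mu G c v = 1) = {v', a'} by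
          ext x; simp only [Finset.mem_filter, Finset.mem_insert, Finset.mem_singleton]
          constructor
          · exact fun h => h.1
          · rintro (rfl | rfl)
            · exact ⟨by simp, hv1'⟩
            · exact ⟨by simp, ma'⟩, Finset.card_pair nav.symm, Finset.card_pair nav'.symm]
      · refine ⟨fun x => if x = v then v' else a', ⟨?_, ?_, ?_⟩, ?_⟩
        · intro x hx
          beta_reduce
          split_ifs <;> simp
        · intro x hx y hy hxy
          have hx' : x = v ∨ x = a := by simpa using hx
          have hy' : y = v ∨ y = a := by simpa using hy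
          beta_reduce at hxy
          grind
        · intro y hy
          have hy' : y = v' ∨ y = a' := by simpa using hy
          rcases hy' with rfl | rfl
          · exact ⟨v, by simp, by simp⟩
          · exact ⟨a, by simp, by simp [nav]⟩
        · intro x hx y hy
          have hx' : x = v ∨ x = a := by simpa using hx
          have hy' : y = v ∨ y = a := by simpa using hy
          beta_reduce
          rcases hx' with rfl | rfl
          · rw [hR y, if_pos rfl, hR']
            grind
          · rw [sa y, if_neg nav, sa']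
            grind
    · push Not at hc1
      have hc1' : ∀ v ∈ W, mu G c v ≠ 1 := by
        intro v hv h
        have : 0 < (U.filter (fun v => mu G c v = 1)).card := by
          rw [e1]
          exact Finset.card_pos.2 ⟨v, by simp [hv, h]⟩
        obtain ⟨v', hv'⟩ := Finset.card_pos.1 this
        rw [Finset.mem_filter] at hv'
        exact hc1 v' hv'.1 hv'.2
      have z1 : ∀ v ∈ U, ∀ y, ¬ Rm G c v y := by
        intro v hv
        have h3 := h2 v
        have h4 := hc2 v hv
        have h5 := hc1 v hv
        exact mu_zero (by omega)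
      have z2 : ∀ v ∈ W, ∀ y, ¬ Rm G c v y := by
        intro v hv
        have h3 := h2 v
        have h4 := hc2' v hv
        have h5 := hc1' v hv
        exact mu_zero (by omega)
      obtain ⟨e⟩ : Nonempty (U ≃ W) := ⟨Finset.equivOfCardEq (hU.trans hW.symm)⟩
      refine ⟨fun x => if h : x ∈ U then (e ⟨x, h⟩ : V) else x, ⟨?_, ?_, ?_⟩, ?_⟩
      · intro x hx
        have hx' : x ∈ U := hx
        beta_reduce
        rw [dif_pos hx']
        exact (e ⟨x, hx'⟩).2
      · intro x hx y hy hxy
        have hx' : x ∈ U := hx
        have hy' : y ∈ U := hy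
        beta_reduce at hxy
        rw [dif_pos hx', dif_pos hy'] at hxy
        have := e.injective (Subtype.ext hxy)
        simpa using this
      · intro y hy
        have hy' : y ∈ W := hy
        refine ⟨(e.symm ⟨y, hy'⟩ : V), (e.symm ⟨y, hy'⟩).2, ?_⟩
        beta_reduce
        rw [dif_pos (e.symm ⟨y, hy'⟩).2]
        simp
      · intro x hx y hy
        beta_reduce
        rw [dif_pos hx, dif_pos hy]
        exact ⟨fun h => absurd h (z1 x hx y), fun h => absurd h (z2 _ (e ⟨x, hx⟩).2 _)⟩

/-- counting the cut edges -/
theorem cut (hreg : G.IsRegularOfDegree 3) (c : V → Bool) :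
    ∑ v ∈ Finset.univ.filter (fun v => c v = true), (3 - (mu G c v : ℤ)) =
      ∑ v ∈ Finset.univ.filter (fun v => c v = false), (3 - (mu G c v : ℤ)) := by
  have h1 : ∀ v, (3 - (mu G c v : ℤ)) = ∑ w, if G.Adj v w ∧ c w ≠ c v then (1 : ℤ) else 0 := by
    intro v
    have h2 : (G.degree v : ℤ) = ∑ w, if G.Adj v w then (1 : ℤ) else 0 := by
      rw [← SimpleGraph.card_neighborFinset_eq_degree, SimpleGraph.neighborFinset_eq_filter, Finset.card_filter]
      push_cast
      rfl
    have h3 : (mu G c v : ℤ) = ∑ w, if G.Adj v w ∧ c w = c v then (1 : ℤ) else 0 := by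
      unfold mu
      rw [Finset.card_filter]
      push_cast
      rfl
    rw [hreg v] at h2
    have h4 : (3 : ℤ) = ∑ w, if G.Adj v w then (1 : ℤ) else 0 := by exact_mod_cast h2
    rw [h3]
    conv_lhs => rw [h4]
    rw [← Finset.sum_sub_distrib]
    refine Finset.sum_congr rfl fun w _ => ?_
    by_cases ha : G.Adj v w <;> by_cases hc : c w = c v <;> simp [ha, hc]
  rw [Finset.sum_filter, Finset.sum_filter]
  simp_rw [h1]
  have h5 : ∀ b : Bool, ∑ v, (if c v = b then ∑ w, (if G.Adj v w ∧ c w ≠ c v then (1 : ℤ) else 0) else 0) =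
      ∑ v, ∑ w, (if c v = b ∧ c w = !b ∧ G.Adj v w then (1 : ℤ) else 0) := by
    intro b
    refine Finset.sum_congr rfl fun v _ => ?_
    by_cases hb : c v = b
    · rw [if_pos hb]
      refine Finset.sum_congr rfl fun w _ => ?_
      subst hb
      cases c w <;> cases c v <;> simp
    · rw [if_neg hb]
      simp [hb]
  rw [h5 true, h5 false, Finset.sum_comm]
  refine Finset.sum_congr rfl fun v _ => Finset.sum_congr rfl fun w _ => ?_
  have h6 : G.Adj w v ↔ G.Adj v w := G.adj_comm w v
  cases c w <;> cases c v <;> simp [h6]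

theorem ISO : ST_ISO := by
  intro V _ _ G _ hreg c hF
  obtain ⟨bal, h2, hl, cen⟩ := hF
  have hcompl : Finset.univ.filter (fun v => c v = false) = (Finset.univ.filter (fun v => c v = true))ᶜ := by
    ext v
    simp
  have hcard : (Finset.univ.filter (fun v => c v = true)).card + (Finset.univ.filter (fun v => c v = false)).card =
      Fintype.card V := by
    rw [hcompl]
    exact Finset.card_add_card_compl _
  have heq : (Finset.univ.filter (fun v => c v = true)).card = (Finset.univ.filter (fun v => c v = false)).card := by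
    have h3 : imb c = ((Finset.univ.filter (fun v => c v = false)).card : ℤ) - ((Finset.univ.filter (fun v => c v = true)).card : ℤ) := by
      unfold imb
      rw [Finset.card_filter, Finset.card_filter]
      push_cast
      rw [← Finset.sum_sub_distrib]
      refine Finset.sum_congr rfl fun v _ => ?_
      cases c v <;> simp
    rw [bal] at h3
    omega
  -- sums of mu
  have sm : ∀ b : Bool, ∑ v ∈ Finset.univ.filter (fun v => c v = b), (3 - (mu G c v : ℤ)) =
      3 * ((Finset.univ.filter (fun v => c v = b)).card : ℤ) -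
        2 * (((Finset.univ.filter (fun v => c v = b)).filter (fun v => mu G c v = 2)).card : ℤ) -
        (((Finset.univ.filter (fun v => c v = b)).filter (fun v => mu G c v = 1)).card : ℤ) := by
    intro b
    rw [Finset.card_filter (fun v => mu G c v = 2), Finset.card_filter (fun v => mu G c v = 1), Finset.card_eq_sum_ones]
    push_cast
    rw [Finset.mul_sum, Finset.mul_sum, ← Finset.sum_sub_distrib, ← Finset.sum_sub_distrib]
    refine Finset.sum_congr rfl fun v _ => ?_
    have h3 := h2 v
    interval_cases h4 : mu G c v <;> simp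
  have hcut := cut hreg c
  rw [sm true, sm false] at hcut
  have e2 : ((Finset.univ.filter (fun v => c v = true)).filter (fun v => mu G c v = 2)).card =
      ((Finset.univ.filter (fun v => c v = false)).filter (fun v => mu G c v = 2)).card := by
    rw [Finset.filter_filter, Finset.filter_filter]
    exact cen
  obtain ⟨f, hf, ha⟩ := main h2 hl _ (Finset.univ.filter (fun v => c v = true)) (Finset.univ.filter (fun v => c v = false))
    rfl heq.symm
    (by
      intro x hx y hy
      simp only [Finset.mem_filter, Finset.mem_univ, true_and] at hx ⊢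
      rw [hy.2, hx])
    (by
      intro x hx y hy
      simp only [Finset.mem_filter, Finset.mem_univ, true_and] at hx ⊢
      rw [hy.2, hx])
    e2 (by omega)
  refine ⟨Finset.univ.filter (fun v => c v = true), by omega, ?_⟩
  rw [hcompl, Finset.coe_compl] at hf
  refine ⟨⟨hf.equiv f, ?_⟩⟩
  intro x y
  have hx : (x : V) ∈ Finset.univ.filter (fun v => c v = true) := x.2
  have hy : (y : V) ∈ Finset.univ.filter (fun v => c v = true) := y.2
  have h3 := ha x hx y hy
  have h4 : c (f x) = false := by
    have := hf.mapsTo x.2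
    simpa using this
  have h5 : c (f y) = false := by
    have := hf.mapsTo y.2
    simpa using this
  simp only [Finset.mem_filter, Finset.mem_univ, true_and] at hx hy
  have h6 : Rm G c x y ↔ G.Adj x y := ⟨fun h => h.1, fun h => ⟨h, by rw [hx, hy]⟩⟩
  have h7 : Rm G c (f x) (f y) ↔ G.Adj (f x) (f y) := ⟨fun h => h.1, fun h => ⟨h, by rw [h4, h5]⟩⟩
  rw [SimpleGraph.comap_adj, SimpleGraph.comap_adj]
  change G.Adj (f x) (f y) ↔ G.Adj x y
  rw [← h6, ← h7]
  exact h3.symm

end Pool.Agent.Helper88.MC
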