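import Mathlib
import Pool.Agent.Helper27.MC.Base

/-! EXI: optimal colourings exist. -/

set_option autoImplicit false
set_option linter.unusedSectionVars false

namespace Pool.Agent.Helper88.MC

open Pool.Agent.Helper27.MC

variable {V : Type} [Fintype V] [DecidableEq V] (G : SimpleGraph V) [DecidableRel G.Adj]

theorem mu_not (c : V → Bool) (v : V) : mu G (fun w => !(c w)) v = mu G c v := by
  unfold mu
  congr 1
  ext w
  simp only [Finset.mem_filter, Finset.mem_univ, true_and]
  cases c w <;> cases c v <;> simp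

theorem imb_not (c : V → Bool) : imb (fun w => !(c w)) = - imb c := by
  unfold imb
  rw [← Finset.sum_neg_distrib]
  refine Finset.sum_congr rfl fun v _ => ?_
  cases h : c v <;> simp [h]

theorem imb_eq (c : V → Bool) : imb c = (Fintype.card V : ℤ) - 2 * ((Finset.univ.filter (fun v => c v = true)).card : ℤ) := by
  unfold imb
  rw [Finset.card_filter]
  push_cast
  rw [Finset.mul_sum, ← Finset.card_univ, Finset.card_eq_sum_ones]
  push_cast
  rw [← Finset.sum_sub_distrib]
  refine Finset.sum_congr rfl fun v _ => ?_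
  cases c v <;> simp

theorem even_card (h : G.IsRegularOfDegree 3) : Even (Fintype.card V) := by
  have h1 := G.even_card_odd_degree_vertices
  have h2 : (Finset.univ.filter (fun v => Odd (G.degree v))) = (Finset.univ : Finset V) := by
    ext v
    simp only [Finset.mem_filter, Finset.mem_univ, true_and, iff_true]
    rw [h v]
    decide
  rw [h2, Finset.card_univ] at h1
  exact h1

theorem EXI (hF : ST_FLIP) : ST_EXI := by
  intro V _ _ G _ hreg
  obtain ⟨c0, h0⟩ := Finite.exists_min (fun c : V → Bool => Phi G c)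
  obtain ⟨c1, h1, h1m⟩ := Finset.exists_min_image (Finset.univ.filter (fun c : V → Bool => Phi G c = Phi G c0))
    (fun c => ZZ G c) ⟨c0, by simp⟩
  simp only [Finset.mem_filter, Finset.mem_univ, true_and] at h1 h1m
  have hmu : ∀ v, mu G c1 v ≤ 1 := by
    intro v
    by_contra hv
    push Not at hv
    obtain ⟨e1, e2, -, -⟩ := hF V G hreg c1 {v}
    have e3 : sg G c1 {v} v = 0 := by
      unfold sg
      simp
    have e4 : |dd c1 {v}| = 1 := by
      unfold dd
      rw [Finset.sum_singleton]
      cases c1 v <;> simp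
    rw [Finset.sum_singleton, Finset.sum_singleton, e3] at e1
    have e5 : |imb (flp c1 {v})| ≤ |imb c1| + 2 := by
      rw [e2]
      have e6 := abs_sub (imb c1) (2 * dd c1 {v})
      rw [abs_mul, e4] at e6
      simpa using e6
    have e7 : (2 : ℤ) ≤ mu G c1 v := by exact_mod_cast hv
    have e8 : Phi G (flp c1 {v}) ≤ Phi G c1 := by
      unfold Phi
      linarith
    have e9 : Phi G (flp c1 {v}) = Phi G c0 := by
      have := h0 (flp c1 {v})
      linarith
    have e10 := h1m _ e9
    linarith
  obtain ⟨c2, h2, h2m⟩ := Finset.exists_min_image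
    (Finset.univ.filter (fun c : V → Bool => Phi G c = Phi G c0 ∧ ∀ v, mu G c v ≤ 1))
    (fun c => |imb c|) ⟨c1, by simp [h1, hmu]⟩
  simp only [Finset.mem_filter, Finset.mem_univ, true_and] at h2 h2m
  obtain ⟨n, hn⟩ := even_card G hreg
  have hev : ∀ c : V → Bool, ∃ i : ℤ, imb c = 2 * i := by
    intro c
    refine ⟨(n : ℤ) - ((Finset.univ.filter (fun v => c v = true)).card : ℤ), ?_⟩
    rw [imb_eq, hn]
    push_cast
    ring
  -- the sign
  have key : ∃ c : V → Bool, Phi G c = Phi G c0 ∧ (∀ v, mu G c v ≤ 1) ∧ 0 ≤ imb c ∧ |imb c| = |imb c2| := by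
    by_cases hs : 0 ≤ imb c2
    · exact ⟨c2, h2.1, h2.2, hs, rfl⟩
    · refine ⟨fun w => !(c2 w), ?_, ?_, ?_, ?_⟩
      · rw [← h2.1]
        unfold Phi ZZ
        simp only [mu_not, imb_not, abs_neg]
      · intro v
        rw [mu_not]
        exact h2.2 v
      · rw [imb_not]
        linarith
      · rw [imb_not, abs_neg]
  obtain ⟨c, k1, k2, k3, k4⟩ := key
  obtain ⟨i, hi⟩ := hev c
  have hi0 : 0 ≤ i := by linarith
  obtain ⟨j, rfl⟩ := Int.eq_ofNat_of_zero_le hi0
  refine ⟨c, j, ⟨?_, k2, hi, ?_⟩⟩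
  · intro c'
    rw [k1]
    exact h0 c'
  · intro c' hc' hm
    rw [← hi, ← abs_of_nonneg k3, k4]
    exact h2m c' ⟨hc'.trans k1, hm⟩

end Pool.Agent.Helper88.MC
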