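import Pool.Agent.Helper33.MC.St
import Pool.Agent.Helper91.MC.SVX

/-!
MP_4042d8_co, section D: basic lemmas on the states of section D (rows D_C3 and others).
-/

set_option autoImplicit false
set_option linter.unusedSectionVars false
set_option linter.unusedVariables false

namespace Pool.Agent.Helper88.MC.DB

open Pool.Agent.Helper27.MC Pool.Agent.Helper51.MC Pool.Agent.Helper64.MC Pool.Agent.Helper91.MC
open Pool.Agent.Helper33.MC Pool.Agent.Helper88.MC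

variable {V : Type} [Fintype V] [DecidableEq V] {G : SimpleGraph V} [DecidableRel G.Adj]
  {c : V → Bool}

theorem ctf {v : V} (h1 : c v = true) (h2 : c v = false) : False := by
  rw [h1] at h2
  cases h2

section sv

variable {s m a b : V}

theorem sv_m (h : Sv G c s m a b) : G.Adj s m := (h.n3.nb m).2 (Or.inl rfl)

theorem sv_a (h : Sv G c s m a b) : G.Adj s a := (h.n3.nb a).2 (Or.inr (Or.inl rfl))

theorem sv_b (h : Sv G c s m a b) : G.Adj s b := (h.n3.nb b).2 (Or.inr (Or.inr rfl))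

theorem sv_nf (h : Sv G c s m a b) {w : V} (hw : G.Adj s w) (cw : c w = false) : w = m := by
  rcases (h.n3.nb w).1 hw with e | e | e
  · exact e
  · exact (ctf h.ca (e ▸ cw)).elim
  · exact (ctf h.cb (e ▸ cw)).elim

theorem sv_nt (h : Sv G c s m a b) {w : V} (hw : G.Adj s w) (cw : c w = true) :
    w = a ∨ w = b := by
  rcases (h.n3.nb w).1 hw with e | e | e
  · exact (ctf cw (e ▸ h.cm)).elim
  · exact Or.inl e
  · exact Or.inr e

theorem sv_mate (h : Sv G c s m a b) {w : V} (hw : Rm G c s w) : w = m :=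
  sv_nf h hw.1 (hw.2.trans h.cs)

end sv

section av

variable {a x y z : V}

theorem av_x (h : Av G c a x y z) : G.Adj a x := (h.n3.nb x).2 (Or.inl rfl)

theorem av_y (h : Av G c a x y z) : G.Adj a y := (h.n3.nb y).2 (Or.inr (Or.inl rfl))

theorem av_z (h : Av G c a x y z) : G.Adj a z := (h.n3.nb z).2 (Or.inr (Or.inr rfl))

end av

/-! ### types -/

theorem tA_nb {x w : V} (hx : tA G c x) (h : G.Adj x w) : c w = false := by
  rcases hcw : c w with _ | _
  · rfl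
  · exact (mu_zero hx.2 w ⟨h, hcw.trans hx.1.symm⟩).elim

theorem tB_nb {x w : V} (hx : tB G c x) (h : G.Adj x w) : c w = true := by
  rcases hcw : c w with _ | _
  · exact (mu_zero hx.2 w ⟨h, hcw.trans hx.1.symm⟩).elim
  · rfl

theorem tB_not_tS {x : V} (hx : tB G c x) : ¬ tS G c x := by
  intro h
  have h1 := hx.2
  have h2 := h.2
  omega

theorem fr_tS {f : V} (h : f ∈ Fr G c) : tS G c f := (mem_Fr.1 h).1

theorem t1_tS {f : V} (h : f ∈ T1 G c) : tS G c f := (mem_T1.1 h).1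

theorem fr_cf {f : V} (h : f ∈ Fr G c) : c f = false := (fr_tS h).1

theorem t1_cf {f : V} (h : f ∈ T1 G c) : c f = false := (t1_tS h).1

theorem fr_not_t1 {f : V} (h : f ∈ Fr G c) : f ∉ T1 G c := by
  intro h'
  have h1 := (mem_Fr.1 h).2
  have h2 := (mem_T1.1 h').2
  omega

theorem fr_not_tB {f : V} (h : f ∈ Fr G c) : ¬ tB G c f := fun h' => tB_not_tS h' (fr_tS h)

theorem t1_not_tB {f : V} (h : f ∈ T1 G c) : ¬ tB G c f := fun h' => tB_not_tS h' (t1_tS h)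

variable (F : Fx G c)

include F

/-- data of a free vertex with a given true neighbour -/
theorem fr_sv {f x : V} (hf : f ∈ Fr G c) (h : G.Adj f x) (cx : c x = true) :
    ∃ m y, Sv G c f m x y ∧ tA G c x ∧ tA G c y := by
  obtain ⟨m, y, hs⟩ := sv_ex F.reg (fr_tS hf) h cx
  exact ⟨m, y, hs, (sv_Fr F.mu1 hs).1 hf⟩

/-- data of a free vertex -/
theorem fr_ex {f : V} (hf : f ∈ Fr G c) :
    ∃ m a b, Sv G c f m a b ∧ tA G c a ∧ tA G c b := by
  obtain ⟨m, x, y, nb, cm, cx, cy, hxy, hmx, hmy⟩ := s_data F.reg (fr_tS hf)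
  have hs : Sv G c f m x y := ⟨fr_cf hf, cm, cx, cy, ⟨nb, hmx, hmy, hxy⟩⟩
  exact ⟨m, x, y, hs, (sv_Fr F.mu1 hs).1 hf⟩

/-- data of a vertex of `T1` -/
theorem t1_ex {t : V} (ht : t ∈ T1 G c) :
    ∃ m a q, Sv G c t m a q ∧ tA G c a ∧ tQ G c q := by
  obtain ⟨m, x, y, nb, cm, cx, cy, hxy, hmx, hmy⟩ := s_data F.reg (t1_tS ht)
  have hs : Sv G c t m x y := ⟨t1_cf ht, cm, cx, cy, ⟨nb, hmx, hmy, hxy⟩⟩
  rcases (sv_T1 F.mu1 hs).1 ht with ⟨h1, h2⟩ | ⟨h1, h2⟩
  · exact ⟨m, x, y, hs, h1, h2⟩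
  · exact ⟨m, y, x, sv_swap hs, h2, h1⟩

/-- a vertex of `T1` has only one neighbour of type `A` -/
theorem t1_uA {t x y : V} (ht : t ∈ T1 G c) (hx : tA G c x) (hy : tA G c y) (h1 : G.Adj t x)
    (h2 : G.Adj t y) : x = y := by
  obtain ⟨m, a, q, hs, ha, hq⟩ := t1_ex F ht
  have e1 : x = a := by
    rcases sv_nt hs h1 hx.1 with e | e
    · exact e
    · exact (tA_not_tQ hx (e ▸ hq)).elim
  have e2 : y = a := by
    rcases sv_nt hs h2 hy.1 with e | e
    · exact e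
    · exact (tA_not_tQ hy (e ▸ hq)).elim
  rw [e1, e2]

/-- free neighbours of a free vertex of type `A` -/
theorem fr_A {f x : V} (hf : f ∈ Fr G c) (h : G.Adj f x) (cx : c x = true) : tA G c x := by
  obtain ⟨m, y, hs, h1, h2⟩ := fr_sv F hf h cx
  exact h1

theorem sv_T {s m a b : V} (h : Sv G c s m a b) : tS G c s := sv_tS F.mu1 h

/-- mates are unique -/
theorem rm_u {x y z : V} (h1 : Rm G c x y) (h2 : Rm G c x z) : y = z := rm_uniq (F.mu1 x) h1 h2

omit F in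
theorem rm_s {x y : V} (h : Rm G c x y) : Rm G c y x := ⟨h.1.symm, h.2.symm⟩

omit F in
/-- squares: the symmetries -/
theorem sqr_s {s1 s2 a b v1 v2 w1 w2 : V} (h : Sqr G c s1 s2 a b v1 v2 w1 w2) :
    Sqr G c s2 s1 a b v2 v1 w1 w2 := by
  refine ⟨h.h2, h.h1, ?_, ?_, h.ta, h.tb, h.tw1, h.tw2, h.hw⟩
  · exact ⟨h.ha.ca, h.ha.cy, h.ha.cx, h.ha.cz,
      ⟨fun w => (h.ha.n3.nb w).trans (by tauto), h.ha.n3.xy.symm, h.ha.n3.yz, h.ha.n3.xz⟩⟩
  · exact ⟨h.hb.ca, h.hb.cy, h.hb.cx, h.hb.cz,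
      ⟨fun w => (h.hb.n3.nb w).trans (by tauto), h.hb.n3.xy.symm, h.hb.n3.yz, h.hb.n3.xz⟩⟩

omit F in
theorem sqr_t {s1 s2 a b v1 v2 w1 w2 : V} (h : Sqr G c s1 s2 a b v1 v2 w1 w2) :
    Sqr G c s1 s2 b a v1 v2 w2 w1 :=
  ⟨sv_swap h.h1, sv_swap h.h2, h.hb, h.ha, h.tb, h.ta, h.tw2, h.tw1, h.hw.symm⟩

theorem sqr_f1 {s1 s2 a b v1 v2 w1 w2 : V} (h : Sqr G c s1 s2 a b v1 v2 w1 w2) : s1 ∈ Fr G c :=
  (sv_Fr F.mu1 h.h1).2 ⟨h.ta, h.tb⟩

theorem sqr_f2 {s1 s2 a b v1 v2 w1 w2 : V} (h : Sqr G c s1 s2 a b v1 v2 w1 w2) : s2 ∈ Fr G c :=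
  (sv_Fr F.mu1 h.h2).2 ⟨h.ta, h.tb⟩

omit F in
/-- neighbours of the corner of a square which are of type `S` -/
theorem sqr_na {s1 s2 a b v1 v2 w1 w2 : V} (h : Sqr G c s1 s2 a b v1 v2 w1 w2) {f : V}
    (hf : tS G c f) (hfa : G.Adj a f) : f = s1 ∨ f = s2 := by
  rcases (h.ha.n3.nb f).1 hfa with e | e | e
  · exact Or.inl e
  · exact Or.inr e
  · exact (tB_not_tS h.tw1 (e ▸ hf)).elim

omit F in
theorem sqr_nb {s1 s2 a b v1 v2 w1 w2 : V} (h : Sqr G c s1 s2 a b v1 v2 w1 w2) {f : V}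
    (hf : tS G c f) (hfa : G.Adj b f) : f = s1 ∨ f = s2 := sqr_na (sqr_t h) hf hfa

/-! ### Clr -/

omit F in
theorem clr_mono {H H' : Finset V} (h : H ⊆ H') {v : V} (hv : Clr G H' v) : Clr G H v :=
  ⟨fun e => hv.1 (h e), fun w hw e => hv.2 w hw (h e)⟩

omit F in
theorem not_clr {H K : Finset V} {v : V} (h : Clr G H v) (h' : ¬ Clr G (H ∪ K) v) :
    v ∈ K ∨ ∃ w ∈ K, G.Adj v w := by
  by_contra hn
  push Not at hn
  refine h' ⟨fun e => ?_, fun w hw e => ?_⟩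
  · rcases Finset.mem_union.1 e with e | e
    · exact h.1 e
    · exact hn.1 e
  · rcases Finset.mem_union.1 e with e | e
    · exact h.2 w hw e
    · exact hn.2 w e hw

omit F in
theorem mem_good {H : Finset V} {p : V × V} : p ∈ good G c H ↔ GS G c H p.1 p.2 := by
  unfold good
  simp

omit F in
theorem mem_live {H : Finset V} {f : V} : f ∈ live G c H ↔ Live G c H f := by
  unfold live
  simp

/-- a live slot -/
theorem ls_mk {H : Finset V} {f x : V} (hf : Live G c H f) (cx : c x = true) (h : G.Adj f x)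
    (hx : Clr G H x) : LS G c H f x := ⟨hf.1, fr_A F hf.1 h cx, h, hf.2, hx⟩

omit F in
theorem ls_live {H : Finset V} {f x : V} (h : LS G c H f x) : Live G c H f := ⟨h.1, h.2.2.2.1⟩

/-- `LOST`: a good slot which is lost although it is still a live slot -/
theorem lost (CLS : ST_DCLS) {H H' : Finset V} (hH : H ⊆ H') {f x : V} (hg : GS G c H f x)
    (hn : ¬ GS G c H' f x) (hl : LS G c H' f x) :
    (∃ t r, MS G c H' f x t r ∧ Avl G c H t ∧ ¬ Clr G H' t) ∨
    ∃ g y v v' w w', Sqr G c f g x y v v' w w' ∧ Live G c H' f ∧ Live G c H' g ∧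
      ((Live G c H v ∨ Avl G c H v) ∨ Live G c H v') ∧
      ¬ (Live G c H' v ∨ Avl G c H' v) ∧ ¬ Live G c H' v' := by
  rcases CLS V G c H' F f x hl with hN | ⟨t, r, hM⟩ | ⟨g, y, v, v', w, w', hS, hLg, _⟩
  · exact (hn ⟨hl, Or.inl hN.2⟩).elim
  · left
    have hM2 := hM
    obtain ⟨_, hxt, htf, ht1, htr, hrH⟩ := hM2
    have hnt : ¬ Clr G H' t := fun e => hn ⟨hl, Or.inr (Or.inl ⟨t, hxt, htf, ht1, e⟩)⟩
    refine ⟨t, r, hM, ?_, hnt⟩
    rcases hg.2 with h1 | ⟨t', h1, h2, h3⟩ | ⟨g, h1, h2, h3, _⟩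
    · exfalso
      rcases h1 t hxt htf r htr with e | e
      · subst e
        exact F.tf r x t hl.2.2.1 hxt htr.1.symm
      · exact hrH (hH e)
    · rcases F.f2 x f t t' hl.2.1 (fr_tS hl.1) (t1_tS ht1) (t1_tS h3.1) hl.2.2.1.symm hxt h1
        with e | e | e
      · exact (htf e.symm).elim
      · exact (h2 e.symm).elim
      · rw [e]
        exact h3
    · exfalso
      rcases F.f2 x f t g hl.2.1 (fr_tS hl.1) (t1_tS ht1) (fr_tS h3.1) hl.2.2.1.symm hxt h1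
        with e | e | e
      · exact htf e.symm
      · exact h2 e.symm
      · rw [← e] at h3
        exact fr_not_t1 h3.1 ht1
  · right
    have hfg : g ≠ f := fun e => hS.ha.n3.xy e.symm
    have hxg : G.Adj x g := av_y hS.ha
    refine ⟨g, y, v, v', w, w', hS, ls_live hl, hLg, ?_, ?_, ?_⟩
    · have hvm : Rm G c f v := sv_rm hS.h1
      have hvm' : Rm G c g v' := sv_rm hS.h2
      rcases hg.2 with h1 | ⟨t', h1, h2, h3⟩ | ⟨g', h1, h2, h3, h4⟩
      · exfalso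
        rcases h1 g hxg hfg v' hvm' with e | e
        · have := hvm'.1
          rw [e] at this
          exact F.tf g f x this hl.2.2.1 hxg.symm
        · exact hLg.2.2 v' hvm'.1 (hH e)
      · exfalso
        rcases sqr_na hS (t1_tS h3.1) h1 with e | e
        · exact h2 e
        · exact fr_not_t1 hLg.1 (e ▸ h3.1)
      · have hgg : g' = g := by
          rcases sqr_na hS (fr_tS h3.1) h1 with e | e
          · exact (h2 e).elim
          · exact e
        subst hgg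
        rcases h4 with ⟨m, hm, hm'⟩ | ⟨m, hm, hm'⟩
        · left
          rw [rm_u F hvm hm]
          exact hm'
        · right
          rw [rm_u F hvm' hm]
          exact hm'
    · intro e
      exact hn ⟨hl, Or.inr (Or.inr ⟨g, hxg, hfg, hLg, Or.inl ⟨v, sv_rm hS.h1, e⟩⟩)⟩
    · intro e
      exact hn ⟨hl, Or.inr (Or.inr ⟨g, hxg, hfg, hLg, Or.inr ⟨v', sv_rm hS.h2, e⟩⟩)⟩

end Pool.Agent.Helper88.MC.DB
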