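import Pool.Agent.Helper88.MC.DBas

/-!
MP_4042d8_co, section D, row D_C3: Case 3 (an intact square with a live free mate).
-/

set_option autoImplicit false
set_option linter.unusedSectionVars false
set_option linter.unusedVariables false

namespace Pool.Agent.Helper88.MC.DB

open Pool.Agent.Helper27.MC Pool.Agent.Helper51.MC Pool.Agent.Helper64.MC Pool.Agent.Helper91.MC
open Pool.Agent.Helper33.MC Pool.Agent.Helper88.MC

variable {V : Type} [Fintype V] [DecidableEq V] {G : SimpleGraph V} [DecidableRel G.Adj]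
  {c : V → Bool}

/-- the configuration of the double operation `U(h)`, `N(s1,a)` -/
structure Wd (G : SimpleGraph V) [DecidableRel G.Adj] (c : V → Bool) (H H' : Finset V)
    (s1 s2 a b v1 h w1 w2 p q : V) : Prop where
  R : Sqr G c s1 s2 a b v1 h w1 w2
  hh : Sv G c h s2 p q
  tp : tA G c p
  tq : tA G c q
  L1 : Clr G H s1
  L2 : Clr G H s2
  La : Clr G H a
  Lh : Clr G H h
  hH : H' = H ∪ ({h, p, q} ∪ {s1, b, s2, a, w1})

variable (F : Fx G c)

section wd

variable {H H' : Finset V} {s1 s2 a b v1 h w1 w2 p q : V}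
  (W : Wd G c H H' s1 s2 a b v1 h w1 w2 p q)

include W

theorem wd_sub : H ⊆ H' := by
  rw [W.hH]
  exact Finset.subset_union_left

theorem wd_mem {x : V} (hx : x = h ∨ x = p ∨ x = q ∨ x = s1 ∨ x = b ∨ x = s2 ∨ x = a ∨ x = w1) :
    x ∈ H' := by
  rw [W.hH]
  refine Finset.mem_union_right _ ?_
  simp only [Finset.mem_union, Finset.mem_insert, Finset.mem_singleton]
  tauto

/-- what is close to the new hard set -/
theorem wd_near {x : V} (hx : Clr G H x) (hx' : ¬ Clr G H' x) :
    ∃ k, (k = h ∨ k = p ∨ k = q ∨ k = s1 ∨ k = b ∨ k = s2 ∨ k = a ∨ k = w1) ∧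
      (x = k ∨ G.Adj x k) := by
  rw [W.hH] at hx'
  have key : ∀ k, k ∈ ({h, p, q} ∪ {s1, b, s2, a, w1} : Finset V) →
      (k = h ∨ k = p ∨ k = q ∨ k = s1 ∨ k = b ∨ k = s2 ∨ k = a ∨ k = w1) := by
    intro k hk
    simp only [Finset.mem_union, Finset.mem_insert, Finset.mem_singleton] at hk
    tauto
  rcases not_clr hx hx' with h1 | ⟨k, h1, h2⟩
  · exact ⟨x, key x h1, Or.inl rfl⟩
  · exact ⟨k, key k h1, Or.inr h2⟩

include F

theorem wd_s2h : Rm G c s2 h := sv_rm W.R.h2

theorem wd_fh : h ∈ Fr G c := (sv_Fr F.mu1 W.hh).2 ⟨W.tp, W.tq⟩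

theorem wd_dead {x : V} (hx : x = h ∨ x = s1 ∨ x = s2 ∨ x = v1) : ¬ Clr G H' x := by
  rcases hx with e | e | e | e
  · subst e
    exact fun e => e.1 (wd_mem W (by tauto))
  · subst e
    exact fun e => e.1 (wd_mem W (by tauto))
  · subst e
    exact fun e => e.1 (wd_mem W (by tauto))
  · subst e
    exact fun e => e.2 s1 (sv_m W.R.h1).symm (wd_mem W (by tauto))

/-- free vertices close to the new hard set -/
theorem wd_fr {f : V} (hf : f ∈ Fr G c) (hc : Clr G H f) (hc' : ¬ Clr G H' f) :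
    f = h ∨ f = s1 ∨ f = s2 ∨ f = v1 ∨ (f ≠ h ∧ (G.Adj p f ∨ G.Adj q f)) := by
  have cf := fr_cf hf
  by_cases e0 : f = h
  · exact Or.inl e0
  obtain ⟨k, hk, hx⟩ := wd_near W hc hc'
  rcases hk with e | e | e | e | e | e | e | e <;> subst e <;> rcases hx with e | e
  · exact Or.inl e
  · exact Or.inr (Or.inr (Or.inl (sv_nf W.hh e.symm cf)))
  · exact (ctf W.tp.1 (e ▸ cf)).elim
  · exact Or.inr (Or.inr (Or.inr (Or.inr ⟨e0, Or.inl e.symm⟩)))
  · exact (ctf W.tq.1 (e ▸ cf)).elim
  · exact Or.inr (Or.inr (Or.inr (Or.inr ⟨e0, Or.inr e.symm⟩)))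
  · exact Or.inr (Or.inl e)
  · exact Or.inr (Or.inr (Or.inr (Or.inl (sv_nf W.R.h1 e.symm cf))))
  · exact (ctf W.R.tb.1 (e ▸ cf)).elim
  · rcases sqr_nb W.R (fr_tS hf) e.symm with e | e
    · exact Or.inr (Or.inl e)
    · exact Or.inr (Or.inr (Or.inl e))
  · exact Or.inr (Or.inr (Or.inl e))
  · exact Or.inl (sv_nf W.R.h2 e.symm cf)
  · exact (ctf W.R.ta.1 (e ▸ cf)).elim
  · rcases sqr_na W.R (fr_tS hf) e.symm with e | e
    · exact Or.inr (Or.inl e)
    · exact Or.inr (Or.inr (Or.inl e))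
  · exact (fr_not_tB hf (e ▸ W.R.tw1)).elim
  · exact (ctf (tB_nb W.R.tw1 e.symm) cf).elim

/-- `A`-vertices close to the new hard set -/
theorem wd_A {x : V} (hf : tA G c x) (hc : Clr G H x) (hc' : ¬ Clr G H' x) :
    x = p ∨ x = q ∨ x = a ∨ x = b ∨ G.Adj x w1 := by
  obtain ⟨k, hk, hx⟩ := wd_near W hc hc'
  rcases hk with e | e | e | e | e | e | e | e <;> subst e <;> rcases hx with e | e
  · exact (ctf hf.1 (e ▸ W.hh.cs)).elim
  · rcases sv_nt W.hh e.symm hf.1 with e | e
    · exact Or.inl e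
    · exact Or.inr (Or.inl e)
  · exact Or.inl e
  · exact (ctf W.tp.1 (tA_nb hf e)).elim
  · exact Or.inr (Or.inl e)
  · exact (ctf W.tq.1 (tA_nb hf e)).elim
  · exact (ctf hf.1 (e ▸ W.R.h1.cs)).elim
  · rcases sv_nt W.R.h1 e.symm hf.1 with e | e
    · exact Or.inr (Or.inr (Or.inl e))
    · exact Or.inr (Or.inr (Or.inr (Or.inl e)))
  · exact Or.inr (Or.inr (Or.inr (Or.inl e)))
  · exact (ctf W.R.tb.1 (tA_nb hf e)).elim
  · exact (ctf hf.1 (e ▸ W.R.h2.cs)).elim
  · rcases sv_nt W.R.h2 e.symm hf.1 with e | e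
    · exact Or.inr (Or.inr (Or.inl e))
    · exact Or.inr (Or.inr (Or.inr (Or.inl e)))
  · exact Or.inr (Or.inr (Or.inl e))
  · exact (ctf W.R.ta.1 (tA_nb hf e)).elim
  · exact (ctf hf.1 (e ▸ W.R.tw1.1)).elim
  · exact Or.inr (Or.inr (Or.inr (Or.inr e)))

/-- vertices of `T1` close to the new hard set -/
theorem wd_T {t : V} (hf : t ∈ T1 G c) (hc : Clr G H t) (hc' : ¬ Clr G H' t) :
    t = v1 ∨ G.Adj t p ∨ G.Adj t q := by
  have cf := t1_cf hf
  have fh := wd_fh F W
  have f1 := sqr_f1 F W.R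
  have f2 := sqr_f2 F W.R
  obtain ⟨k, hk, hx⟩ := wd_near W hc hc'
  rcases hk with e | e | e | e | e | e | e | e <;> subst e <;> rcases hx with e | e
  · exact (fr_not_t1 fh (e ▸ hf)).elim
  · exact (fr_not_t1 f2 ((sv_nf W.hh e.symm cf) ▸ hf)).elim
  · exact (ctf W.tp.1 (e ▸ cf)).elim
  · exact Or.inr (Or.inl e)
  · exact (ctf W.tq.1 (e ▸ cf)).elim
  · exact Or.inr (Or.inr e)
  · exact (fr_not_t1 f1 (e ▸ hf)).elim
  · exact Or.inl (sv_nf W.R.h1 e.symm cf)
  · exact (ctf W.R.tb.1 (e ▸ cf)).elim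
  · rcases sqr_nb W.R (t1_tS hf) e.symm with e | e
    · exact (fr_not_t1 f1 (e ▸ hf)).elim
    · exact (fr_not_t1 f2 (e ▸ hf)).elim
  · exact (fr_not_t1 f2 (e ▸ hf)).elim
  · exact (fr_not_t1 fh ((sv_nf W.R.h2 e.symm cf) ▸ hf)).elim
  · exact (ctf W.R.ta.1 (e ▸ cf)).elim
  · rcases sqr_na W.R (t1_tS hf) e.symm with e | e
    · exact (fr_not_t1 f1 (e ▸ hf)).elim
    · exact (fr_not_t1 f2 (e ▸ hf)).elim
  · exact (t1_not_tB hf (e ▸ W.R.tw1)).elim
  · exact (ctf (tB_nb W.R.tw1 e.symm) cf).elim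

/-- the two operations -/
theorem wd_ops : OpU G c H (H ∪ {h, p, q}) ∧ OpN G c (H ∪ {h, p, q}) H' := by
  have nhs : h ≠ s1 := by
    intro e
    have e1 := sv_m W.R.h2
    rw [e] at e1
    exact F.tf s2 s1 a e1 (sv_a W.R.h1) (sv_a W.R.h2)
  have nhs2 : h ≠ s2 := (sv_m W.R.h2).ne.symm
  have fh := wd_fh F W
  have hnp : ∀ k, k ∈ ({h, p, q} : Finset V) → k = h ∨ k = p ∨ k = q := by
    intro k hk
    simpa using hk
  have nha : ∀ x, x = p ∨ x = q → x ≠ a ∧ x ≠ b := by
    intro x hx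
    have hadj : G.Adj h x := by
      rcases hx with e | e
      · exact e ▸ sv_a W.hh
      · exact e ▸ sv_b W.hh
    constructor
    · intro e
      rcases sqr_na W.R (fr_tS fh) (e ▸ hadj.symm) with e | e
      · exact nhs e
      · exact nhs2 e
    · intro e
      rcases sqr_nb W.R (fr_tS fh) (e ▸ hadj.symm) with e | e
      · exact nhs e
      · exact nhs2 e
  have n1 : v1 ≠ h := by
    intro e
    have e1 : Rm G c h s1 := e ▸ (sv_rm W.R.h1).symm
    have e2 : Rm G c h s2 := sv_rm W.hh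
    exact W.R.ha.n3.xy (rm_u F e1 e2)
  refine ⟨⟨h, s2, p, q, W.hh, W.tp, W.tq, W.Lh, rfl⟩, ?_⟩
  refine ⟨s1, v1, a, b, s2, w1, W.R.h1, ?_, W.R.ta, W.R.tb, ?_, ?_, ?_, ?_, ?_⟩
  · exact W.R.ha
  · refine ⟨fun e => ?_, fun w hw e => ?_⟩
    · rcases Finset.mem_union.1 e with e | e
      · exact W.L1.1 e
      · rcases hnp _ e with e | e | e
        · exact nhs e.symm
        · exact ctf W.tp.1 (e ▸ W.R.h1.cs)
        · exact ctf W.tq.1 (e ▸ W.R.h1.cs)
    · rcases Finset.mem_union.1 e with e | e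
      · exact W.L1.2 w hw e
      · rcases (W.R.h1.n3.nb w).1 hw with e1 | e1 | e1 <;> subst e1 <;>
          rcases hnp _ e with e | e | e
        · exact n1 e
        · exact ctf W.tp.1 (e ▸ W.R.h1.cm)
        · exact ctf W.tq.1 (e ▸ W.R.h1.cm)
        · exact ctf W.R.ta.1 (e ▸ W.hh.cs)
        · exact (nha _ (Or.inl rfl)).1 e.symm
        · exact (nha _ (Or.inr rfl)).1 e.symm
        · exact ctf W.R.tb.1 (e ▸ W.hh.cs)
        · exact (nha _ (Or.inl rfl)).2 e.symm
        · exact (nha _ (Or.inr rfl)).2 e.symm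
  · refine ⟨fun e => ?_, fun w hw e => ?_⟩
    · rcases Finset.mem_union.1 e with e | e
      · exact W.La.1 e
      · rcases hnp _ e with e | e | e
        · exact ctf W.R.ta.1 (e ▸ W.hh.cs)
        · exact (nha _ (Or.inl rfl)).1 e.symm
        · exact (nha _ (Or.inr rfl)).1 e.symm
    · rcases Finset.mem_union.1 e with e | e
      · exact W.La.2 w hw e
      · have cw := tA_nb W.R.ta hw
        rcases hnp _ e with e | e | e
        · subst e
          rcases sqr_na W.R (fr_tS fh) hw with e | e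
          · exact nhs e
          · exact nhs2 e
        · exact ctf W.tp.1 (e ▸ cw)
        · exact ctf W.tq.1 (e ▸ cw)
  · intro y hy
    right
    have e : y = h := sv_mate W.R.h2 hy
    subst e
    refine Finset.mem_union_right _ (by simp)
  · intro y hy
    exact (mu_zero W.R.tw1.2 y hy).elim
  · rw [W.hH, Finset.union_assoc]

/-- live vertices which die -/
theorem wd_k1 {v f : V} (hv : Live G c H v) (hv' : ¬ Live G c H' v) (hm : Rm G c v f)
    (hf : Clr G H' f) : v ≠ h ∧ (G.Adj p v ∨ G.Adj q v) := by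
  have hc' : ¬ Clr G H' v := fun e => hv' ⟨hv.1, e⟩
  rcases wd_fr F W hv.1 hv.2 hc' with e | e | e | e | e
  · subst e
    exact (wd_dead F W (Or.inr (Or.inr (Or.inl (rm_u F hm (sv_rm W.hh))))) hf).elim
  · subst e
    exact (wd_dead F W (Or.inr (Or.inr (Or.inr (rm_u F hm (sv_rm W.R.h1))))) hf).elim
  · subst e
    exact (wd_dead F W (Or.inl (rm_u F hm (sv_rm W.R.h2))) hf).elim
  · subst e
    exact (wd_dead F W (Or.inr (Or.inl (rm_u F hm (sv_rm W.R.h1).symm))) hf).elim
  · exact e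

/-- available vertices of `T1` which die -/
theorem wd_k2 {v f : V} (hv : Avl G c H v) (hv' : ¬ Avl G c H' v) (hm : Rm G c v f)
    (hf : Clr G H' f) : G.Adj v p ∨ G.Adj v q := by
  have hc' : ¬ Clr G H' v := fun e => hv' ⟨hv.1, e⟩
  rcases wd_T F W hv.1 hv.2 hc' with e | e
  · subst e
    exact (wd_dead F W (Or.inr (Or.inl (rm_u F hm (sv_rm W.R.h1).symm))) hf).elim
  · exact e

/-- the good slots which are lost -/
theorem wd_lost (CLS : ST_DCLS) {f x : V} (hg : GS G c H f x) (hn : ¬ GS G c H' f x) :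
    (f = s1 ∨ f = s2) ∨ f = v1 ∨ (G.Adj x w1 ∧ x ≠ a) ∨ (f = h ∨ G.Adj p f ∨ G.Adj q f) ∨
    (LS G c H' f x ∧ ∃ g y v v' w w', Sqr G c f g x y v v' w w' ∧ Live G c H' f ∧ Live G c H' g ∧
      ((Live G c H v ∨ Avl G c H v) ∨ Live G c H v') ∧
      ¬ (Live G c H' v ∨ Avl G c H' v) ∧ ¬ Live G c H' v') := by
  obtain ⟨hfF, hxA, hfx, hcf, hcx⟩ := hg.1
  by_cases c1 : Clr G H' f
  · by_cases c2 : Clr G H' x
    · have hl : LS G c H' f x := ⟨hfF, hxA, hfx, c1, c2⟩
      rcases lost F CLS (wd_sub W) hg hn hl with ⟨t, r, hM, ht, ht'⟩ | hB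
      · exfalso
        obtain ⟨_, hxt, htf, ht1, htr, hrH⟩ := hM
        rcases wd_T F W ht.1 ht.2 ht' with e | e | e
        · subst e
          exact hrH (wd_mem W (Or.inr (Or.inr (Or.inr (Or.inl
            (rm_u F htr (sv_rm W.R.h1).symm))))))
        · have := t1_uA F ht1 hxA W.tp hxt.symm e
          subst this
          exact c2.1 (wd_mem W (by tauto))
        · have := t1_uA F ht1 hxA W.tq hxt.symm e
          subst this
          exact c2.1 (wd_mem W (by tauto))
      · exact Or.inr (Or.inr (Or.inr (Or.inr ⟨hl, hB⟩)))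
    · rcases wd_A F W hxA hcx c2 with e | e | e | e | e
      · subst e
        exact Or.inr (Or.inr (Or.inr (Or.inl (Or.inr (Or.inl hfx.symm)))))
      · subst e
        exact Or.inr (Or.inr (Or.inr (Or.inl (Or.inr (Or.inr hfx.symm)))))
      · subst e
        exact Or.inl (sqr_na W.R (fr_tS hfF) hfx.symm)
      · subst e
        exact Or.inl (sqr_nb W.R (fr_tS hfF) hfx.symm)
      · by_cases hxa : x = a
        · subst hxa
          exact Or.inl (sqr_na W.R (fr_tS hfF) hfx.symm)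
        · exact Or.inr (Or.inr (Or.inl ⟨e, hxa⟩))
  · rcases wd_fr F W hfF hcf c1 with e | e | e | e | e
    · exact Or.inr (Or.inr (Or.inr (Or.inl (Or.inl e))))
    · exact Or.inl (Or.inl e)
    · exact Or.inl (Or.inr e)
    · exact Or.inr (Or.inl e)
    · exact Or.inr (Or.inr (Or.inr (Or.inl (Or.inr e.2))))

/-- the live vertices which are lost -/
theorem wd_live {f : V} (hg : Live G c H f) (hn : ¬ Live G c H' f) :
    f = h ∨ f = s1 ∨ f = s2 ∨ f = v1 ∨ (f ≠ h ∧ (G.Adj p f ∨ G.Adj q f)) :=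
  wd_fr F W hg.1 hg.2 (fun e => hn ⟨hg.1, e⟩)

end wd

/-! ### lists of slots -/

/-- the two slots of `f` -/
def sl (f a b : V) : Finset (V × V) := {(f, a), (f, b)}

theorem sl_card (f a b : V) : (sl f a b).card ≤ 2 := Finset.card_le_two

theorem sl_mem {f m a b x : V} (h : Sv G c f m a b) (hx : G.Adj f x) (cx : c x = true) :
    (f, x) ∈ sl f a b := by
  unfold sl
  rcases sv_nt h hx cx with e | e
  · rw [e]
    simp
  · rw [e]
    simp

/-- the four slots of a square -/
def sq (s1 s2 a b : V) : Finset (V × V) := sl s1 a b ∪ sl s2 a b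

theorem sq_card (s1 s2 a b : V) : (sq s1 s2 a b).card ≤ 4 := by
  unfold sq
  have h1 := Finset.card_union_le (sl s1 a b) (sl s2 a b)
  have h2 := sl_card s1 a b
  have h3 := sl_card s2 a b
  omega

theorem sq_mem {s1 s2 a b v1 v2 w1 w2 f x : V} (h : Sqr G c s1 s2 a b v1 v2 w1 w2)
    (hf : f = s1 ∨ f = s2) (hx : G.Adj f x) (cx : c x = true) : (f, x) ∈ sq s1 s2 a b := by
  unfold sq
  rcases hf with e | e
  · subst e
    exact Finset.mem_union_left _ (sl_mem h.h1 hx cx)
  · subst e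
    exact Finset.mem_union_right _ (sl_mem h.h2 hx cx)

include F

/-- the own slots of a vertex -/
theorem own (f : V) : ∃ M : Finset (V × V), M.card ≤ 2 ∧
    ∀ x, f ∈ Fr G c → G.Adj f x → c x = true → (f, x) ∈ M := by
  by_cases hf : f ∈ Fr G c
  · obtain ⟨m, a, b, hs, ha, hb⟩ := fr_ex F hf
    exact ⟨sl f a b, sl_card f a b, fun x _ h1 h2 => sl_mem hs h1 h2⟩
  · exact ⟨∅, by simp, fun x h => (hf h).elim⟩

/-- the exceptional slots: the square of the mate of the partner of `h` -/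
def EE (G : SimpleGraph V) [DecidableRel G.Adj] (c : V → Bool) (H : Finset V) (m g f x : V) :
    Prop :=
  ∃ o y mo w w', Sqr G c m o x y g mo w w' ∧ Live G c H m ∧ Live G c H o ∧ Clr G H x ∧
    ¬ Live G c H mo ∧ (f = m ∨ (f = o ∧ ¬ Avl G c H mo))

/-- the good slots which are lost when `h` is in an intact square -/
theorem wd_sq (CLS : ST_DCLS) {H H' : Finset V} {s1 s2 a b v1 h w1 w2 p q : V}
    (W : Wd G c H H' s1 s2 a b v1 h w1 w2 p q) {g m z1 z2 : V}
    (R1 : Sqr G c h g p q s2 m z1 z2) (Lg : Clr G H g) {f x : V} (hg : GS G c H f x)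
    (hn : ¬ GS G c H' f x) :
    (f, x) ∈ sq s1 s2 a b ∨ f = v1 ∨ (G.Adj x w1 ∧ x ≠ a ∧ f ≠ s1 ∧ f ≠ v1) ∨
      (f, x) ∈ sq h g p q ∨ EE G c H m g f x := by
  have hl := hg.1
  by_cases e1 : f = v1
  · exact Or.inr (Or.inl e1)
  by_cases e2 : f = s1
  · exact Or.inl (sq_mem W.R (Or.inl e2) hl.2.2.1 hl.2.1.1)
  have k1 : ∀ {v f : V}, Live G c H v → ¬ Live G c H' v → Rm G c v f → Clr G H' f →
      v = g ∧ f = m := by
    intro v f hv hv' hm hf
    obtain ⟨hvh, hvn⟩ := wd_k1 F W hv hv' hm hf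
    have : v = g := by
      rcases hvn with e | e
      · rcases sqr_na R1 (fr_tS hv.1) e with e | e
        · exact (hvh e).elim
        · exact e
      · rcases sqr_nb R1 (fr_tS hv.1) e with e | e
        · exact (hvh e).elim
        · exact e
    subst this
    exact ⟨rfl, rm_u F hm (sv_rm R1.h2)⟩
  have k2 : ∀ {v f : V}, Avl G c H v → ¬ Avl G c H' v → Rm G c v f → Clr G H' f → False := by
    intro v f hv hv' hm hf
    have hh := sqr_f1 F R1
    have hg' := sqr_f2 F R1
    rcases wd_k2 F W hv hv' hm hf with e | e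
    · rcases sqr_na R1 (t1_tS hv.1) e.symm with e | e
      · exact fr_not_t1 hh (e ▸ hv.1)
      · exact fr_not_t1 hg' (e ▸ hv.1)
    · rcases sqr_nb R1 (t1_tS hv.1) e.symm with e | e
      · exact fr_not_t1 hh (e ▸ hv.1)
      · exact fr_not_t1 hg' (e ▸ hv.1)
  rcases wd_lost F W CLS hg hn with e | e | e | e | ⟨hl', g', y, v, v', w, w', S, L1, L2, d1, d2, d3⟩
  · exact Or.inl (sq_mem W.R e hl.2.2.1 hl.2.1.1)
  · exact Or.inr (Or.inl e)
  · exact Or.inr (Or.inr (Or.inl ⟨e.1, e.2, e2, e1⟩))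
  · refine Or.inr (Or.inr (Or.inr (Or.inl (sq_mem R1 ?_ hl.2.2.1 hl.2.1.1))))
    rcases e with e | e | e
    · exact Or.inl e
    · exact sqr_na R1 (fr_tS hl.1) e
    · exact sqr_nb R1 (fr_tS hl.1) e
  · right; right; right; right
    have L1H : Live G c H f := ⟨L1.1, clr_mono (wd_sub W) L1.2⟩
    have L2H : Live G c H g' := ⟨L2.1, clr_mono (wd_sub W) L2.2⟩
    have hne : f ≠ g' := S.ha.n3.xy
    have rv : Rm G c v f := (sv_rm S.h1).symm
    have rv' : Rm G c v' g' := (sv_rm S.h2).symm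
    have d2a : ¬ Live G c H' v := fun e => d2 (Or.inl e)
    have d2b : ¬ Avl G c H' v := fun e => d2 (Or.inr e)
    rcases d1 with (d1 | d1) | d1
    · obtain ⟨h1, h2⟩ := k1 d1 d2a rv L1.2
      subst h1
      subst h2
      refine ⟨g', y, v', w, w', S, L1H, L2H, hl.2.2.2.2, ?_, Or.inl rfl⟩
      intro e
      exact hne (k1 e d3 rv' L2.2).2.symm
    · exact (k2 d1 d2b rv L1.2).elim
    · obtain ⟨h1, h2⟩ := k1 d1 d3 rv' L2.2
      subst h1
      subst h2
      refine ⟨f, y, v, w, w', sqr_s S, L2H, L1H, hl.2.2.2.2, ?_, Or.inr ⟨rfl, ?_⟩⟩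
      · intro e
        exact hne (k1 e d2a rv L1.2).2
      · intro e
        exact k2 e d2b rv L1.2

omit F in
/-- from a list of the lost slots to the loss -/
theorem concl {H H' : Finset V} {n k : ℕ} (N : Finset (V × V)) (hN : N.card ≤ n)
    (hc : ∀ f x, GS G c H f x → ¬ GS G c H' f x → (f, x) ∈ N) (M : Finset V) (hM : M.card ≤ k)
    (hl : ∀ f, Live G c H f → ¬ Live G c H' f → f ∈ M) : Loss G c H H' n k := by
  constructor
  · refine (Finset.card_le_card ?_).trans hN
    intro y hy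
    rw [Finset.mem_sdiff] at hy
    exact hc y.1 y.2 (mem_good.1 hy.1) (fun e => hy.2 (mem_good.2 e))
  · refine (Finset.card_le_card ?_).trans hM
    intro y hy
    rw [Finset.mem_sdiff] at hy
    exact hl y (mem_live.1 hy.1) (fun e => hy.2 (mem_live.2 e))

omit F in
theorem card5 (x1 x2 x3 x4 x5 : V) : ({x1, x2, x3, x4, x5} : Finset V).card ≤ 5 :=
  Finset.card_le_five

omit F in
theorem card_un {α : Type} [DecidableEq α] {A B : Finset α} {m n : ℕ} (hA : A.card ≤ m)
    (hB : B.card ≤ n) : (A ∪ B).card ≤ m + n :=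
  (Finset.card_union_le A B).trans (Nat.add_le_add hA hB)

/-- the cover of the lost slots, `h` in an intact square -/
theorem wd_cover (CLS : ST_DCLS) (DW : ST_DW) {H H' : Finset V}
    {s1 s2 a b v1 h w1 w2 p q : V}
    (W : Wd G c H H' s1 s2 a b v1 h w1 w2 p q) {g m z1 z2 : V}
    (R1 : Sqr G c h g p q s2 m z1 z2) (Lg : Clr G H g) :
    ∃ L : Finset (V × V), L.card ≤ 2 ∧ ∀ f x, GS G c H f x → ¬ GS G c H' f x →
      (f, x) ∈ sq s1 s2 a b ∨ f = v1 ∨ (f, x) ∈ L ∨ (f, x) ∈ sq h g p q ∨ EE G c H m g f x := by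
  have hls : LS G c H s1 a := ⟨sqr_f1 F W.R, W.R.ta, sv_a W.R.h1, W.L1, W.La⟩
  obtain ⟨L, hL, hL'⟩ := DW V G c H F s1 v1 a w1 hls (sv_rm W.R.h1) (av_z W.R.ha)
    W.R.ha.n3.xz.symm (fun y hy => (mu_zero W.R.tw1.2 y hy).elim)
  refine ⟨L, hL, fun f x hg hn => ?_⟩
  rcases wd_sq F CLS W R1 Lg hg hn with e | e | e | e | e
  · exact Or.inl e
  · exact Or.inr (Or.inl e)
  · exact Or.inr (Or.inr (Or.inl (hL' f x hg.1 e.1 e.2.1 e.2.2.1 e.2.2.2)))
  · exact Or.inr (Or.inr (Or.inr (Or.inl e)))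
  · exact Or.inr (Or.inr (Or.inr (Or.inr e)))

/-- the conclusion from a list of the lost slots, `h` in an intact square -/
theorem sq_concl {H H' : Finset V} {s1 s2 a b v1 h w1 w2 p q : V}
    (W : Wd G c H H' s1 s2 a b v1 h w1 w2 p q) {g m z1 z2 : V}
    (R1 : Sqr G c h g p q s2 m z1 z2) (N : Finset (V × V)) (hN : N.card ≤ 12)
    (hc : ∀ f x, GS G c H f x → ¬ GS G c H' f x → (f, x) ∈ N) :
    ∃ H1 H', OpU G c H H1 ∧ OpN G c H1 H' ∧ Loss G c H H' 12 5 := by
  refine ⟨_, H', (wd_ops F W).1, (wd_ops F W).2,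
    concl N hN hc {h, s1, s2, v1, g} (card5 h s1 s2 v1 g) (fun f h1 h2 => ?_)⟩
  have key : f = h ∨ f = s1 ∨ f = s2 ∨ f = v1 ∨ f = g := by
    rcases wd_live F W h1 h2 with e | e | e | e | ⟨e0, e | e⟩
    · exact Or.inl e
    · exact Or.inr (Or.inl e)
    · exact Or.inr (Or.inr (Or.inl e))
    · exact Or.inr (Or.inr (Or.inr (Or.inl e)))
    · rcases sqr_na R1 (fr_tS h1.1) e with e | e
      · exact (e0 e).elim
      · exact Or.inr (Or.inr (Or.inr (Or.inr e)))
    · rcases sqr_nb R1 (fr_tS h1.1) e with e | e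
      · exact (e0 e).elim
      · exact Or.inr (Or.inr (Or.inr (Or.inr e)))
  simp only [Finset.mem_insert, Finset.mem_singleton]
  exact key

/-- the own slots or the spoiled slots at `p` -/
def SP (G : SimpleGraph V) [DecidableRel G.Adj] (c : V → Bool) (H : Finset V) (h p f x : V) :
    Prop :=
  (LS G c H h p ∧ f = h ∧ x = p) ∨
  (¬ LS G c H h p ∧ f ∈ Fr G c ∧ G.Adj f x ∧ c x = true ∧ ∃ v, v ∈ T1 G c ∧ Rm G c v f ∧
    G.Adj p v)

theorem sp_fin {H : Finset V} {h p : V} (hh : h ∈ Fr G c) (hp : tA G c p) (hph : G.Adj p h) :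
    ∃ N : Finset (V × V), N.card ≤ 2 ∧ ∀ f x, SP G c H h p f x → (f, x) ∈ N := by
  by_cases h1 : LS G c H h p
  · refine ⟨{(h, p)}, by simp, fun f x hs => ?_⟩
    rcases hs with ⟨_, e1, e2⟩ | ⟨e, _⟩
    · rw [e1, e2]
      simp
    · exact (e h1).elim
  · by_cases h2 : ∃ v f, v ∈ T1 G c ∧ Rm G c v f ∧ G.Adj p v
    · obtain ⟨v, f0, hv, hm, hpv⟩ := h2
      obtain ⟨M, hM, hM'⟩ := own F f0
      refine ⟨M, hM, fun f x hs => ?_⟩
      rcases hs with ⟨e, _⟩ | ⟨_, e1, e2, e3, v', e4, e5, e6⟩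
      · exact (h1 e).elim
      · have : v = v' := by
          rcases F.f2 p h v v' hp (fr_tS hh) (t1_tS hv) (t1_tS e4) hph hpv e6 with e | e | e
          · exact (fr_not_t1 hh (e ▸ hv)).elim
          · exact (fr_not_t1 hh (e ▸ e4)).elim
          · exact e
        subst this
        have : f0 = f := rm_u F hm e5
        subst this
        exact hM' x e1 e2 e3
    · refine ⟨∅, by simp, fun f x hs => ?_⟩
      rcases hs with ⟨e, _⟩ | ⟨_, e1, e2, e3, v', e4, e5, e6⟩
      · exact (h1 e).elim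
      · exact (h2 ⟨v', f, e4, e5, e6⟩).elim

/-- the good slots which are lost when `h` is not in an intact square -/
theorem wd_ns (CLS : ST_DCLS) {H H' : Finset V} {s1 s2 a b v1 h w1 w2 p q : V}
    (W : Wd G c H H' s1 s2 a b v1 h w1 w2 p q)
    (hno : ∀ g, Live G c H g → g ≠ h → ¬ (G.Adj p g ∨ G.Adj q g)) (hP2 : ¬ P2 G c H)
    {f x : V} (hg : GS G c H f x) (hn : ¬ GS G c H' f x) :
    (f, x) ∈ sq s1 s2 a b ∨ f = v1 ∨ (G.Adj x w1 ∧ x ≠ a ∧ f ≠ s1 ∧ f ≠ v1) ∨
      SP G c H h p f x ∨ SP G c H h q f x := by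
  have hl := hg.1
  have hhF := wd_fh F W
  by_cases e1 : f = v1
  · exact Or.inr (Or.inl e1)
  by_cases e2 : f = s1
  · exact Or.inl (sq_mem W.R (Or.inl e2) hl.2.2.1 hl.2.1.1)
  have k1 : ∀ {v f : V}, Live G c H v → ¬ Live G c H' v → Rm G c v f → Clr G H' f → False := by
    intro v f hv hv' hm hf
    obtain ⟨hvh, hvn⟩ := wd_k1 F W hv hv' hm hf
    exact hno v hv hvh hvn
  rcases wd_lost F W CLS hg hn with e | e | e | e | ⟨hl', g', y, v, v', w, w', S, L1, L2, d1, d2, d3⟩
  · exact Or.inl (sq_mem W.R e hl.2.2.1 hl.2.1.1)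
  · exact Or.inr (Or.inl e)
  · exact Or.inr (Or.inr (Or.inl ⟨e.1, e.2, e2, e1⟩))
  · have hfh : f = h := by
      by_contra hne
      rcases e with e | e
      · exact hne e
      · exact hno f (ls_live hl) hne e
    subst hfh
    rcases sv_nt W.hh hl.2.2.1 hl.2.1.1 with e | e
    · subst e
      exact Or.inr (Or.inr (Or.inr (Or.inl (Or.inl ⟨hl, rfl, rfl⟩))))
    · subst e
      exact Or.inr (Or.inr (Or.inr (Or.inr (Or.inl ⟨hl, rfl, rfl⟩))))
  · have L1H : Live G c H f := ⟨L1.1, clr_mono (wd_sub W) L1.2⟩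
    have L2H : Live G c H g' := ⟨L2.1, clr_mono (wd_sub W) L2.2⟩
    have rv : Rm G c v f := (sv_rm S.h1).symm
    have rv' : Rm G c v' g' := (sv_rm S.h2).symm
    have d2a : ¬ Live G c H' v := fun e => d2 (Or.inl e)
    have d2b : ¬ Avl G c H' v := fun e => d2 (Or.inr e)
    have nv' : ¬ Live G c H v' := fun e => k1 e d3 rv' L2.2
    have key : ∀ x0 : V, (x0 = p ∨ x0 = q) → Avl G c H v → G.Adj v x0 → SP G c H h x0 f x := by
      intro x0 hx0 hv hvx
      right
      refine ⟨?_, hl.1, hl.2.2.1, hl.2.1.1, v, hv.1, rv, hvx.symm⟩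
      intro hlh
      refine hP2 ⟨h, x0, v, f, g', x, y, v', w, w', ⟨hlh, hvx.symm, ?_, hv.1, rv, ?_⟩, S, L1H,
        L2H, nv'⟩
      · intro e
        exact fr_not_t1 hhF (e ▸ hv.1)
      · exact L1H.2.1
    rcases d1 with (d1 | d1) | d1
    · exact (k1 d1 d2a rv L1.2).elim
    · rcases wd_k2 F W d1 d2b rv L1.2 with e | e
      · exact Or.inr (Or.inr (Or.inr (Or.inl (key p (Or.inl rfl) d1 e))))
      · exact Or.inr (Or.inr (Or.inr (Or.inr (key q (Or.inr rfl) d1 e))))
    · exact (nv' d1).elim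

/-- row D_C3 -/
theorem st_DC3 (CLS : ST_DCLS) (DW : ST_DW) : ST_DC3 := by
  intro V _ _ G _ c H F hI hPN hP2 hP3
  obtain ⟨s1, s2, a, b, v1, h, w1, w2, R, L1, L2, hls, Lh⟩ := hP3
  obtain ⟨m', p, q, hh', tp, tq⟩ := fr_ex F Lh.1
  rw [rm_u F (sv_rm hh') (sv_rm R.h2).symm] at hh'
  have hf1 := sqr_f1 F R
  have hf2 := sqr_f2 F R
  have W : Wd G c H (H ∪ ({h, p, q} ∪ {s1, b, s2, a, w1})) s1 s2 a b v1 h w1 w2 p q :=
    ⟨R, hh', tp, tq, L1.2, L2.2, hls.2.2.2.2, Lh.2, rfl⟩
  obtain ⟨Mv, hMv, hMv'⟩ := own F v1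
  by_cases hg : ∃ g, Live G c H g ∧ g ≠ h ∧ (G.Adj p g ∨ G.Adj q g)
  · -- `h` in an intact square
    obtain ⟨g, Lg, hgh, hpg⟩ := hg
    have hR1 : ∃ m z1 z2, Sqr G c h g p q s2 m z1 z2 := by
      rcases hpg with e | e
      · obtain ⟨y, v, v', w, w', S⟩ := F.f3 p h g tp Lh.1 Lg.1 hgh.symm (sv_a hh').symm e
        have e1 : v = s2 := rm_u F (sv_rm S.h1) (sv_rm hh')
        have e2 : y = q := by
          rcases sv_nt hh' (sv_b S.h1) S.tb.1 with e | e
          · exact (S.h1.n3.yz e.symm).elim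
          · exact e
        subst e1
        subst e2
        exact ⟨v', w, w', S⟩
      · obtain ⟨y, v, v', w, w', S⟩ := F.f3 q h g tq Lh.1 Lg.1 hgh.symm (sv_b hh').symm e
        have e1 : v = s2 := rm_u F (sv_rm S.h1) (sv_rm hh')
        have e2 : y = p := by
          rcases sv_nt hh' (sv_b S.h1) S.tb.1 with e | e
          · exact e
          · exact (S.h1.n3.yz e.symm).elim
        subst e1
        subst e2
        exact ⟨v', w', w, sqr_t S⟩
    obtain ⟨m, z1, z2, R1⟩ := hR1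
    obtain ⟨L, hL, hL'⟩ := wd_cover F CLS DW W R1 Lg.2
    by_cases hE : ∃ f x, EE G c H m g f x
    · obtain ⟨f0, x0, o, y0, mo, w, w', S, Lm, Lo, cx0, nmo, _⟩ := hE
      by_cases hv : Live G c H v1 ∨ Avl G c H v1
      · -- (ii)
        have W2 : Wd G c H (H ∪ ({g, p, q} ∪ {o, y0, m, x0, w})) o m x0 y0 mo g w w' p q :=
          ⟨sqr_s S, R1.h2, tp, tq, Lo.2, Lm.2, cx0, Lg.2, rfl⟩
        obtain ⟨L2, hL2, hL2'⟩ := wd_cover F CLS DW W2 (sqr_s R1) Lh.2
        refine sq_concl F W2 (sqr_s R1) (sq o m x0 y0 ∪ L2 ∪ sq g h p q ∪ sl s2 a b) ?_ ?_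
        · exact card_un (card_un (card_un (sq_card _ _ _ _) hL2) (sq_card _ _ _ _)) (sl_card _ _ _)
        · intro f x hgs hn
          rcases hL2' f x hgs hn with e | e | e | e | e
          · exact Finset.mem_union_left _ (Finset.mem_union_left _ (Finset.mem_union_left _ e))
          · exact (nmo (e ▸ ls_live hgs.1)).elim
          · exact Finset.mem_union_left _ (Finset.mem_union_left _ (Finset.mem_union_right _ e))
          · exact Finset.mem_union_left _ (Finset.mem_union_right _ e)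
          · obtain ⟨o', y', mo', u, u', S', Ls2, Lo', _, nmo', hfo⟩ := e
            have hx : x = a ∨ x = b := sv_nt R.h2 (sv_a S'.h1) S'.ta.1
            have ho : o' = s1 := by
              have h1 : G.Adj x o' := (sv_a S'.h2).symm
              have h2 : tS G c o' := fr_tS Lo'.1
              have h3 : o' ≠ s2 := fun e => S'.ha.n3.xy e.symm
              rcases hx with e | e
              · rcases sqr_na R h2 (e ▸ h1) with e | e
                · exact e
                · exact (h3 e).elim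
              · rcases sqr_nb R h2 (e ▸ h1) with e | e
                · exact e
                · exact (h3 e).elim
            have hmo : mo' = v1 := by
              have h1 := sv_rm S'.h2
              rw [ho] at h1
              exact rm_u F h1 (sv_rm R.h1)
            have hfs : f = s2 := by
              rcases hfo with e | ⟨_, e⟩
              · exact e
              · rw [hmo] at nmo' e
                exact (hv.elim nmo' e).elim
            rw [hfs]
            refine Finset.mem_union_right _ (sl_mem R.h2 (hfs ▸ hgs.1.2.2.1) hgs.1.2.1.1)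
      · have nv : ¬ Live G c H v1 := fun e => hv (Or.inl e)
        by_cases hl1 : LS G c H g p ∨ LS G c H g q
        · -- (iii)
          have main : ∀ p' q' z1' z2', Sqr G c h g p' q' s2 m z1' z2' → Clr G H p' →
              ∃ H1 H', OpU G c H H1 ∧ OpN G c H1 H' ∧ Loss G c H H' 12 5 := by
            intro p' q' z1' z2' R1' cp
            have W3 : Wd G c H (H ∪ ({s2, a, b} ∪ {g, q', h, p', z1'})) g h p' q' m s2 z1' z2'
                a b :=
              ⟨sqr_s R1', R.h2, R.ta, R.tb, Lg.2, Lh.2, cp, L2.2, rfl⟩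
            obtain ⟨L3, hL3, hL3'⟩ := wd_cover F CLS DW W3 (sqr_s R) L1.2
            obtain ⟨Mm, hMm, hMm'⟩ := own F m
            refine sq_concl F W3 (sqr_s R) (sq g h p' q' ∪ Mm ∪ L3 ∪ sq s2 s1 a b) ?_ ?_
            · exact card_un (card_un (card_un (sq_card _ _ _ _) hMm) hL3) (sq_card _ _ _ _)
            · intro f x hgs hn
              rcases hL3' f x hgs hn with e | e | e | e | e
              · exact Finset.mem_union_left _ (Finset.mem_union_left _
                  (Finset.mem_union_left _ e))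
              · rw [e]
                refine Finset.mem_union_left _ (Finset.mem_union_left _
                  (Finset.mem_union_right _ (hMm' x ?_ ?_ hgs.1.2.1.1)))
                · exact e ▸ hgs.1.1
                · exact e ▸ hgs.1.2.2.1
              · exact Finset.mem_union_left _ (Finset.mem_union_right _ e)
              · exact Finset.mem_union_right _ e
              · obtain ⟨o', y', mo', u, u', S', Ls2, _⟩ := e
                exact (nv Ls2).elim
          rcases hl1 with e | e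
          · exact main p q z1 z2 R1 e.2.2.2.2
          · exact main q p z2 z1 (sqr_t R1) e.2.2.2.2
        · -- (iv)
          have hl2 : ∀ f x, GS G c H f x → (f, x) ∈ sq h g p q → False := by
            intro f x hgs hm
            have hx : x = p ∨ x = q := by
              unfold sq sl at hm
              simp only [Finset.mem_union, Finset.mem_insert, Finset.mem_singleton,
                Prod.mk.injEq] at hm
              tauto
            have hcx : Clr G H x := hgs.1.2.2.2.2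
            rcases hx with e | e
            · subst e
              exact hl1 (Or.inl (ls_mk F Lg tp.1 (sv_a R1.h2) hcx))
            · subst e
              exact hl1 (Or.inr (ls_mk F Lg tq.1 (sv_b R1.h2) hcx))
          refine sq_concl F W R1 (sq s1 s2 a b ∪ Mv ∪ L ∪ sq m o x0 y0) ?_ ?_
          · exact card_un (card_un (card_un (sq_card _ _ _ _) hMv) hL) (sq_card _ _ _ _)
          · intro f x hgs hn
            rcases hL' f x hgs hn with e | e | e | e | e
            · exact Finset.mem_union_left _ (Finset.mem_union_left _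
                (Finset.mem_union_left _ e))
            · rw [e]
              refine Finset.mem_union_left _ (Finset.mem_union_left _
                (Finset.mem_union_right _ (hMv' x ?_ ?_ hgs.1.2.1.1)))
              · exact e ▸ hgs.1.1
              · exact e ▸ hgs.1.2.2.1
            · exact Finset.mem_union_left _ (Finset.mem_union_right _ e)
            · exact (hl2 f x hgs e).elim
            · obtain ⟨o', y', mo', u, u', S', _, Lo', _, _, hfo⟩ := e
              have hx : x = x0 ∨ x = y0 := sv_nt S.h1 (sv_a S'.h1) S'.ta.1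
              have h1 : G.Adj x o' := (sv_a S'.h2).symm
              have h2 : tS G c o' := fr_tS Lo'.1
              have h3 : o' = m ∨ o' = o := by
                rcases hx with e | e
                · exact sqr_na S h2 (e ▸ h1)
                · exact sqr_nb S h2 (e ▸ h1)
              refine Finset.mem_union_right _ (sq_mem S ?_ hgs.1.2.2.1 hgs.1.2.1.1)
              rcases hfo with e | ⟨e, _⟩
              · exact Or.inl e
              · rw [e]
                exact h3
    · -- (i)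
      refine sq_concl F W R1 (sq s1 s2 a b ∪ Mv ∪ L ∪ sq h g p q) ?_ ?_
      · exact card_un (card_un (card_un (sq_card _ _ _ _) hMv) hL) (sq_card _ _ _ _)
      · intro f x hgs hn
        rcases hL' f x hgs hn with e | e | e | e | e
        · exact Finset.mem_union_left _ (Finset.mem_union_left _
            (Finset.mem_union_left _ e))
        · rw [e]
          refine Finset.mem_union_left _ (Finset.mem_union_left _
            (Finset.mem_union_right _ (hMv' x ?_ ?_ hgs.1.2.1.1)))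
          · exact e ▸ hgs.1.1
          · exact e ▸ hgs.1.2.2.1
        · exact Finset.mem_union_left _ (Finset.mem_union_right _ e)
        · exact Finset.mem_union_right _ e
        · exact (hE ⟨f, x, e⟩).elim
  · -- `3a`
    have hno : ∀ g, Live G c H g → g ≠ h → ¬ (G.Adj p g ∨ G.Adj q g) :=
      fun g h1 h2 h3 => hg ⟨g, h1, h2, h3⟩
    obtain ⟨L, hL, hL'⟩ := DW V G c H F s1 v1 a w1 hls (sv_rm R.h1) (av_z R.ha)
      R.ha.n3.xz.symm (fun y hy => (mu_zero R.tw1.2 y hy).elim)
    obtain ⟨Np, hNp, hNp'⟩ := sp_fin F (H := H) Lh.1 tp (sv_a hh').symm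
    obtain ⟨Nq, hNq, hNq'⟩ := sp_fin F (H := H) Lh.1 tq (sv_b hh').symm
    refine ⟨_, _, (wd_ops F W).1, (wd_ops F W).2,
      concl (sq s1 s2 a b ∪ Mv ∪ L ∪ Np ∪ Nq) ?_ ?_ {h, s1, s2, v1, v1} (card5 h s1 s2 v1 v1) ?_⟩
    · exact card_un (card_un (card_un (card_un (sq_card _ _ _ _) hMv) hL) hNp) hNq
    · intro f x hgs hn
      rcases wd_ns F CLS W hno hP2 hgs hn with e | e | e | e | e
      · exact Finset.mem_union_left _ (Finset.mem_union_left _
          (Finset.mem_union_left _ (Finset.mem_union_left _ e)))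
      · rw [e]
        refine Finset.mem_union_left _ (Finset.mem_union_left _
          (Finset.mem_union_left _ (Finset.mem_union_right _ (hMv' x ?_ ?_ hgs.1.2.1.1))))
        · exact e ▸ hgs.1.1
        · exact e ▸ hgs.1.2.2.1
      · exact Finset.mem_union_left _ (Finset.mem_union_left _
          (Finset.mem_union_right _ (hL' f x hgs.1 e.1 e.2.1 e.2.2.1 e.2.2.2)))
      · exact Finset.mem_union_left _ (Finset.mem_union_right _ (hNp' f x e))
      · exact Finset.mem_union_right _ (hNq' f x e)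
    · intro f h1 h2
      simp only [Finset.mem_insert, Finset.mem_singleton]
      rcases wd_live F W h1 h2 with e | e | e | e | ⟨e0, e⟩
      · exact Or.inl e
      · exact Or.inr (Or.inl e)
      · exact Or.inr (Or.inr (Or.inl e))
      · exact Or.inr (Or.inr (Or.inr (Or.inl e)))
      · exact (hno f h1 e0 e).elim

end Pool.Agent.Helper88.MC.DB
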