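import Pool.Agent.Helper33.MC.StG
import Pool.Agent.Helper88.MC.DC3

/-!
MP_4042d8_co, section D, part II, Case 3 in arbitrary cubic graphs: the double operation
`U(h)`, `N(s1,a)`, `h` = mate of `s2`, for a square `s1 s2 a b`: what is close to the new hard set,
and what is lost when `h` is in an intact square.
-/

set_option autoImplicit false
set_option linter.unusedSectionVars false
set_option linter.unusedVariables false

namespace Pool.Agent.Helper88.MC.GC3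

open Pool.Agent.Helper27.MC hiding Fr T1 ter
open Pool.Agent.Helper51.MC Pool.Agent.Helper64.MC Pool.Agent.Helper88.MC
open Pool.Agent.Helper91.MC (sv_ex s_data sv_Fr sv_T1 sv_swap sv_tS sv_rm tA_not_tQ mem_Fr mem_T1)
open Pool.Agent.Helper33.MC
open Pool.Agent.Helper79.MC (Sqg)
open Pool.Agent.Helper91.MC.GK (Khb)
open Pool.Agent.Helper96.MC (Td Apx Lx Exm)
open Pool.Agent.Helper88.MC.DB (ctf sv_m sv_a sv_b sv_nf sv_nt sv_mate av_x av_y av_z tA_nb tB_nb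
  tB_not_tS fr_tS t1_tS fr_cf t1_cf fr_not_t1 fr_not_tB t1_not_tB rm_s clr_mono not_clr sl sl_card
  sl_mem sq sq_card)

variable {V : Type} [Fintype V] [DecidableEq V] {G : SimpleGraph V} [DecidableRel G.Adj]
  {c : V → Bool} {j : ℕ} {L : V → V → Prop}

/-! ### squares -/

section sqg

variable {s1 s2 a b v1 v2 za zb : V}

theorem sqg_s (h : Sqg G c s1 s2 a b v1 v2 za zb) : Sqg G c s2 s1 a b v2 v1 za zb := by
  refine ⟨h.h2, h.h1, ?_, ?_, h.ta, h.tb, fun e => h.n12 (rm_s e), h.zab, ?_, ?_⟩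
  · exact ⟨h.ha.ca, h.ha.cy, h.ha.cx, h.ha.cz,
      ⟨fun w => (h.ha.n3.nb w).trans (by tauto), h.ha.n3.xy.symm, h.ha.n3.yz, h.ha.n3.xz⟩⟩
  · exact ⟨h.hb.ca, h.hb.cy, h.hb.cx, h.hb.cz,
      ⟨fun w => (h.hb.n3.nb w).trans (by tauto), h.hb.n3.xy.symm, h.hb.n3.yz, h.hb.n3.xz⟩⟩
  · rcases h.ka with e | e | e
    · exact Or.inl e
    · exact Or.inr (Or.inr e)
    · exact Or.inr (Or.inl e)
  · rcases h.kb with e | e | e
    · exact Or.inl e
    · exact Or.inr (Or.inr e)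
    · exact Or.inr (Or.inl e)

theorem sqg_t (h : Sqg G c s1 s2 a b v1 v2 za zb) : Sqg G c s1 s2 b a v1 v2 zb za :=
  ⟨sv_swap h.h1, sv_swap h.h2, h.hb, h.ha, h.tb, h.ta, h.n12, h.zab.symm, h.kb, h.ka⟩

theorem sqg_zS (h : Sqg G c s1 s2 a b v1 v2 za zb) : tB G c za ∨ za ∈ T1 G c := by
  rcases h.ka with e | ⟨e, e'⟩ | ⟨e, e'⟩
  · exact Or.inl e
  · exact Or.inr (e ▸ e')
  · exact Or.inr (e ▸ e')

/-- free neighbours of a hub of a square -/
theorem sqg_fa (h : Sqg G c s1 s2 a b v1 v2 za zb) {f : V} (hf : f ∈ Fr G c) (hfa : G.Adj a f) :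
    f = s1 ∨ f = s2 := by
  rcases (h.ha.n3.nb f).1 hfa with e | e | e
  · exact Or.inl e
  · exact Or.inr e
  · exfalso
    rcases sqg_zS h with e' | e'
    · exact fr_not_tB hf (e ▸ e')
    · exact fr_not_t1 hf (e ▸ e')

theorem sqg_fb (h : Sqg G c s1 s2 a b v1 v2 za zb) {f : V} (hf : f ∈ Fr G c) (hfa : G.Adj b f) :
    f = s1 ∨ f = s2 := sqg_fa (sqg_t h) hf hfa

variable (F : FxG G c j L)

include F

theorem sqg_f1 (h : Sqg G c s1 s2 a b v1 v2 za zb) : s1 ∈ Fr G c :=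
  (sv_Fr F.mu1 h.h1).2 ⟨h.ta, h.tb⟩

theorem sqg_f2 (h : Sqg G c s1 s2 a b v1 v2 za zb) : s2 ∈ Fr G c :=
  (sv_Fr F.mu1 h.h2).2 ⟨h.ta, h.tb⟩

/-- vertices of `T1` at a hub of a square -/
theorem sqg_ta (h : Sqg G c s1 s2 a b v1 v2 za zb) {t : V} (ht : t ∈ T1 G c) (hta : G.Adj a t) :
    t = v1 ∨ t = v2 := by
  rcases (h.ha.n3.nb t).1 hta with e | e | e
  · exact (fr_not_t1 (sqg_f1 F h) (e ▸ ht)).elim
  · exact (fr_not_t1 (sqg_f2 F h) (e ▸ ht)).elim
  · rcases h.ka with e' | ⟨e', _⟩ | ⟨e', _⟩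
    · exact (t1_not_tB ht (e ▸ e')).elim
    · exact Or.inl (e.trans e')
    · exact Or.inr (e.trans e')

end sqg

section bas

variable (F : FxG G c j L)

include F

/-- mates are unique -/
theorem rm_u {x y z : V} (h1 : Rm G c x y) (h2 : Rm G c x z) : y = z := rm_uniq (F.mu1 x) h1 h2

theorem fr_sv {f x : V} (hf : f ∈ Fr G c) (h : G.Adj f x) (cx : c x = true) :
    ∃ m y, Sv G c f m x y ∧ tA G c x ∧ tA G c y := by
  obtain ⟨m, y, hs⟩ := sv_ex F.reg (fr_tS hf) h cx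
  exact ⟨m, y, hs, (sv_Fr F.mu1 hs).1 hf⟩

theorem fr_ex {f : V} (hf : f ∈ Fr G c) :
    ∃ m a b, Sv G c f m a b ∧ tA G c a ∧ tA G c b := by
  obtain ⟨m, x, y, nb, cm, cx, cy, hxy, hmx, hmy⟩ := s_data F.reg (fr_tS hf)
  have hs : Sv G c f m x y := ⟨fr_cf hf, cm, cx, cy, ⟨nb, hmx, hmy, hxy⟩⟩
  exact ⟨m, x, y, hs, (sv_Fr F.mu1 hs).1 hf⟩

theorem fr_A {f x : V} (hf : f ∈ Fr G c) (h : G.Adj f x) (cx : c x = true) : tA G c x := by
  obtain ⟨m, y, hs, h1, h2⟩ := fr_sv F hf h cx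
  exact h1

theorem t1_ex {t : V} (ht : t ∈ T1 G c) :
    ∃ m a q, Sv G c t m a q ∧ tA G c a ∧ tQ G c q := by
  obtain ⟨m, x, y, nb, cm, cx, cy, hxy, hmx, hmy⟩ := s_data F.reg (t1_tS ht)
  have hs : Sv G c t m x y := ⟨t1_cf ht, cm, cx, cy, ⟨nb, hmx, hmy, hxy⟩⟩
  rcases (sv_T1 F.mu1 hs).1 ht with ⟨h1, h2⟩ | ⟨h1, h2⟩
  · exact ⟨m, x, y, hs, h1, h2⟩
  · exact ⟨m, y, x, sv_swap hs, h2, h1⟩

theorem t1_uA {t x y : V} (ht : t ∈ T1 G c) (hx : tA G c x) (hy : tA G c y) (h1 : G.Adj t x)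
    (h2 : G.Adj t y) : x = y := by
  obtain ⟨m, a, q, hs, ha, hq⟩ := t1_ex F ht
  have e1 : x = a := by
    rcases sv_nt hs h1 hx.1 with e | e
    · exact e
    · exact (tA_not_tQ hx (e ▸ hq)).elim
  have e2 : y = a := by
    rcases sv_nt hs h2 hy.1 with e | e
    · exact e
    · exact (tA_not_tQ hy (e ▸ hq)).elim
  rw [e1, e2]

/-- the vertices of a `K`-hub -/
theorem khb_data {u v a b t t' q q' k k' : V} (K : Khb G c u v a b t t' q q' k k') :
    u ∈ Fr G c ∧ t ∈ T1 G c ∧ t' ∈ T1 G c ∧ tQ G c q ∧ tQ G c k := by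
  have hq : tQ G c q := ⟨K.h1.cb, mu_of_rm F.mu1 K.q1⟩
  have hq' : tQ G c q' := ⟨K.h2.cb, mu_of_rm F.mu1 K.q2⟩
  refine ⟨(sv_Fr F.mu1 K.hu).2 ⟨K.ta, K.tb⟩, (sv_T1 F.mu1 K.h1).2 (Or.inl ⟨K.ta, hq⟩),
    (sv_T1 F.mu1 K.h2).2 (Or.inl ⟨K.ta, hq'⟩), hq, K.q1.2.trans K.h1.cb,
    mu_of_rm F.mu1 (rm_s K.q1)⟩

/-- a `K`-hub is no hub of a square -/
theorem khb_sqg {s1 s2 a b v1 v2 za zb : V} (h : Sqg G c s1 s2 a b v1 v2 za zb)
    {u v b' t t' q q' k k' : V} (K : Khb G c u v a b' t t' q q' k k') : False := by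
  obtain ⟨hu, ht, ht', _, _⟩ := khb_data F K
  have h1 := sqg_f1 F h
  have h2 := sqg_f2 F h
  have e1 : s1 = u := by
    rcases (K.ha.n3.nb s1).1 (av_x h.ha) with e | e | e
    · exact e
    · exact (fr_not_t1 h1 (e ▸ ht)).elim
    · exact (fr_not_t1 h1 (e ▸ ht')).elim
  have e2 : s2 = u := by
    rcases (K.ha.n3.nb s2).1 (av_y h.ha) with e | e | e
    · exact e
    · exact (fr_not_t1 h2 (e ▸ ht)).elim
    · exact (fr_not_t1 h2 (e ▸ ht')).elim
  exact h.ha.n3.xy (e1.trans e2.symm)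

/-- a source is not the mate of a free vertex -/
theorem src_mate {v y s : V} (h : L v y) (hm : Rm G c y s) (hs : s ∈ Fr G c) : False := by
  obtain ⟨hy, w, p, y', n, n', d, hT, _⟩ := F.lx.src v y h
  have hyy : y' = s :=
    rm_u F ⟨(hT.nx.nb y').2 (Or.inr (Or.inl rfl)), hT.cx'.trans hT.cx.symm⟩ hm
  have hsw : G.Adj s w := hyy ▸ (hT.nx'.nb w).2 (Or.inl rfl)
  exact mu_zero (fr_A F hs hsw hT.cq).2 p ⟨(hT.nq.nb p).2 (Or.inl rfl), hT.cp.trans hT.cq.symm⟩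

end bas

/-- a good square slot which is lost although it is still a live slot of an intact square -/
def LoG (G : SimpleGraph V) [DecidableRel G.Adj] (c : V → Bool) (L : V → V → Prop)
    (H H' : Finset V) (f x : V) : Prop :=
  ∃ g y v v' zx zy, Sqg G c f g x y v v' zx zy ∧ LS G c H' f x ∧ Live G c H' g ∧
    (Live G c H v ∨ Avl G c H v ∨ Live G c H v' ∨ ∃ y', L v y' ∧ Avl G c H y') ∧
    ¬ Live G c H' v ∧ ¬ Avl G c H' v ∧ ¬ Live G c H' v' ∧ ∀ y', L v y' → ¬ Avl G c H' y'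

/-- the configuration of the double operation `U(h)`, `N(s1,a)` -/
structure WdG (G : SimpleGraph V) [DecidableRel G.Adj] (c : V → Bool) (H H' : Finset V)
    (s1 s2 a b v1 h za zb p q : V) : Prop where
  R : Sqg G c s1 s2 a b v1 h za zb
  hh : Sv G c h s2 p q
  tp : tA G c p
  tq : tA G c q
  L1 : Clr G H s1
  L2 : Clr G H s2
  La : Clr G H a
  Lh : Clr G H h
  hH : H' = H ∪ ({h, p, q} ∪ {s1, b, s2, a, za})

section wd

variable {H H' : Finset V} {s1 s2 a b v1 h za zb p q : V}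
  (W : WdG G c H H' s1 s2 a b v1 h za zb p q)

include W

theorem wd_sub : H ⊆ H' := by
  rw [W.hH]
  exact Finset.subset_union_left

theorem wd_mem {x : V} (hx : x = h ∨ x = p ∨ x = q ∨ x = s1 ∨ x = b ∨ x = s2 ∨ x = a ∨ x = za) :
    x ∈ H' := by
  rw [W.hH]
  refine Finset.mem_union_right _ ?_
  simp only [Finset.mem_union, Finset.mem_insert, Finset.mem_singleton]
  tauto

/-- what is close to the new hard set -/
theorem wd_near {x : V} (hx : Clr G H x) (hx' : ¬ Clr G H' x) :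
    ∃ k, (k = h ∨ k = p ∨ k = q ∨ k = s1 ∨ k = b ∨ k = s2 ∨ k = a ∨ k = za) ∧
      (x = k ∨ G.Adj x k) := by
  rw [W.hH] at hx'
  have key : ∀ k, k ∈ ({h, p, q} ∪ {s1, b, s2, a, za} : Finset V) →
      (k = h ∨ k = p ∨ k = q ∨ k = s1 ∨ k = b ∨ k = s2 ∨ k = a ∨ k = za) := by
    intro k hk
    simp only [Finset.mem_union, Finset.mem_insert, Finset.mem_singleton] at hk
    tauto
  rcases Pool.Agent.Helper88.MC.DB.not_clr hx hx' with h1 | ⟨k, h1, h2⟩
  · exact ⟨x, key x h1, Or.inl rfl⟩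
  · exact ⟨k, key k h1, Or.inr h2⟩

variable (F : FxG G c j L)

include F

theorem wd_fh : h ∈ Fr G c := (sv_Fr F.mu1 W.hh).2 ⟨W.tp, W.tq⟩

/-- the third neighbour of `a` -/
theorem wd_za : tB G c za ∨ (za = v1 ∧ v1 ∈ T1 G c) := by
  rcases W.R.ka with e | e | ⟨_, e⟩
  · exact Or.inl e
  · exact Or.inr e
  · exact (fr_not_t1 (wd_fh W F) e).elim

theorem wd_zb : tB G c zb ∨ (zb = v1 ∧ v1 ∈ T1 G c) := by
  rcases W.R.kb with e | e | ⟨_, e⟩
  · exact Or.inl e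
  · exact Or.inr e
  · exact (fr_not_t1 (wd_fh W F) e).elim

theorem wd_dead {x : V} (hx : x = h ∨ x = s1 ∨ x = s2 ∨ x = v1) : ¬ Clr G H' x := by
  rcases hx with e | e | e | e
  · subst e
    exact fun e => e.1 (wd_mem W (by tauto))
  · subst e
    exact fun e => e.1 (wd_mem W (by tauto))
  · subst e
    exact fun e => e.1 (wd_mem W (by tauto))
  · subst e
    exact fun e => e.2 s1 (sv_m W.R.h1).symm (wd_mem W (by tauto))

/-- free vertices close to the new hard set -/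
theorem wd_fr {f : V} (hf : f ∈ Fr G c) (hc : Clr G H f) (hc' : ¬ Clr G H' f) :
    f = h ∨ f = s1 ∨ f = s2 ∨ f = v1 ∨ (f ≠ h ∧ (G.Adj p f ∨ G.Adj q f)) := by
  have cf := fr_cf hf
  by_cases e0 : f = h
  · exact Or.inl e0
  obtain ⟨k, hk, hx⟩ := wd_near W hc hc'
  rcases hk with e | e | e | e | e | e | e | e <;> subst e <;> rcases hx with e | e
  · exact Or.inl e
  · exact Or.inr (Or.inr (Or.inl (sv_nf W.hh e.symm cf)))
  · exact (ctf W.tp.1 (e ▸ cf)).elim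
  · exact Or.inr (Or.inr (Or.inr (Or.inr ⟨e0, Or.inl e.symm⟩)))
  · exact (ctf W.tq.1 (e ▸ cf)).elim
  · exact Or.inr (Or.inr (Or.inr (Or.inr ⟨e0, Or.inr e.symm⟩)))
  · exact Or.inr (Or.inl e)
  · exact Or.inr (Or.inr (Or.inr (Or.inl (sv_nf W.R.h1 e.symm cf))))
  · exact (ctf W.R.tb.1 (e ▸ cf)).elim
  · rcases sqg_fb W.R hf e.symm with e | e
    · exact Or.inr (Or.inl e)
    · exact Or.inr (Or.inr (Or.inl e))
  · exact Or.inr (Or.inr (Or.inl e))
  · exact Or.inl (sv_nf W.R.h2 e.symm cf)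
  · exact (ctf W.R.ta.1 (e ▸ cf)).elim
  · rcases sqg_fa W.R hf e.symm with e | e
    · exact Or.inr (Or.inl e)
    · exact Or.inr (Or.inr (Or.inl e))
  · exfalso
    rcases wd_za W F with e' | ⟨e', e2⟩
    · exact fr_not_tB hf (e ▸ e')
    · exact fr_not_t1 hf (e ▸ e' ▸ e2)
  · rcases wd_za W F with e' | ⟨e', e2⟩
    · exact (ctf (tB_nb e' e.symm) cf).elim
    · subst e'
      have h1 : Rm G c k f := ⟨e.symm, cf.trans W.R.h1.cm.symm⟩
      exact Or.inr (Or.inl (rm_u F h1 (sv_rm W.R.h1).symm))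

/-- `A`-vertices close to the new hard set -/
theorem wd_A {x : V} (hf : tA G c x) (hc : Clr G H x) (hc' : ¬ Clr G H' x) :
    x = p ∨ x = q ∨ x = a ∨ x = b ∨ G.Adj x za := by
  obtain ⟨k, hk, hx⟩ := wd_near W hc hc'
  rcases hk with e | e | e | e | e | e | e | e <;> subst e <;> rcases hx with e | e
  · exact (ctf hf.1 (e ▸ W.hh.cs)).elim
  · rcases sv_nt W.hh e.symm hf.1 with e | e
    · exact Or.inl e
    · exact Or.inr (Or.inl e)
  · exact Or.inl e
  · exact (ctf W.tp.1 (tA_nb hf e)).elim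
  · exact Or.inr (Or.inl e)
  · exact (ctf W.tq.1 (tA_nb hf e)).elim
  · exact (ctf hf.1 (e ▸ W.R.h1.cs)).elim
  · rcases sv_nt W.R.h1 e.symm hf.1 with e | e
    · exact Or.inr (Or.inr (Or.inl e))
    · exact Or.inr (Or.inr (Or.inr (Or.inl e)))
  · exact Or.inr (Or.inr (Or.inr (Or.inl e)))
  · exact (ctf W.R.tb.1 (tA_nb hf e)).elim
  · exact (ctf hf.1 (e ▸ W.R.h2.cs)).elim
  · rcases sv_nt W.R.h2 e.symm hf.1 with e | e
    · exact Or.inr (Or.inr (Or.inl e))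
    · exact Or.inr (Or.inr (Or.inr (Or.inl e)))
  · exact Or.inr (Or.inr (Or.inl e))
  · exact (ctf W.R.ta.1 (tA_nb hf e)).elim
  · exact (ctf hf.1 (e ▸ W.R.ha.cz)).elim
  · exact Or.inr (Or.inr (Or.inr (Or.inr e)))

/-- vertices of `T1` close to the new hard set -/
theorem wd_T {t : V} (hf : t ∈ T1 G c) (hc : Clr G H t) (hc' : ¬ Clr G H' t) :
    t = v1 ∨ G.Adj t p ∨ G.Adj t q := by
  have cf := t1_cf hf
  have fh := wd_fh W F
  have f1 := sqg_f1 F W.R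
  have f2 := sqg_f2 F W.R
  have key : ∀ t : V, t ∈ T1 G c → (t = v1 ∨ t = h) → t = v1 := by
    intro t ht e
    rcases e with e | e
    · exact e
    · exact (fr_not_t1 fh (e ▸ ht)).elim
  obtain ⟨k, hk, hx⟩ := wd_near W hc hc'
  rcases hk with e | e | e | e | e | e | e | e <;> subst e <;> rcases hx with e | e
  · exact (fr_not_t1 fh (e ▸ hf)).elim
  · exact (fr_not_t1 f2 ((sv_nf W.hh e.symm cf) ▸ hf)).elim
  · exact (ctf W.tp.1 (e ▸ cf)).elim
  · exact Or.inr (Or.inl e)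
  · exact (ctf W.tq.1 (e ▸ cf)).elim
  · exact Or.inr (Or.inr e)
  · exact (fr_not_t1 f1 (e ▸ hf)).elim
  · exact Or.inl (sv_nf W.R.h1 e.symm cf)
  · exact (ctf W.R.tb.1 (e ▸ cf)).elim
  · exact Or.inl (key t hf (sqg_ta F (sqg_t W.R) hf e.symm))
  · exact (fr_not_t1 f2 (e ▸ hf)).elim
  · exact (fr_not_t1 fh ((sv_nf W.R.h2 e.symm cf) ▸ hf)).elim
  · exact (ctf W.R.ta.1 (e ▸ cf)).elim
  · exact Or.inl (key t hf (sqg_ta F W.R hf e.symm))
  · rcases wd_za W F with e' | ⟨e', e2⟩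
    · exact (t1_not_tB hf (e ▸ e')).elim
    · exact Or.inl (e.trans e')
  · rcases wd_za W F with e' | ⟨e', e2⟩
    · exact (ctf (tB_nb e' e.symm) cf).elim
    · subst e'
      have h1 : Rm G c k t := ⟨e.symm, cf.trans W.R.h1.cm.symm⟩
      exact (fr_not_t1 f1 ((rm_u F h1 (sv_rm W.R.h1).symm) ▸ hf)).elim

/-- `Q`-vertices close to the new hard set -/
theorem wd_Q {k : V} (hf : tQ G c k) (hc : Clr G H k) (hc' : ¬ Clr G H' k) : G.Adj k za := by
  have nA : ∀ x, tA G c x → ¬ G.Adj k x := by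
    intro x hx hkx
    exact mu_zero hx.2 k ⟨hkx.symm, hf.1.trans hx.1.symm⟩
  have nE : ∀ x, tA G c x → k ≠ x := by
    intro x hx e
    exact tA_not_tQ hx (e ▸ hf)
  obtain ⟨k', hk, hx⟩ := wd_near W hc hc'
  rcases hk with e | e | e | e | e | e | e | e <;> subst e <;> rcases hx with e | e
  · exact (ctf hf.1 (e ▸ W.hh.cs)).elim
  · rcases sv_nt W.hh e.symm hf.1 with e | e
    · exact (nE _ W.tp e).elim
    · exact (nE _ W.tq e).elim
  · exact (nE _ W.tp e).elim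
  · exact (nA _ W.tp e).elim
  · exact (nE _ W.tq e).elim
  · exact (nA _ W.tq e).elim
  · exact (ctf hf.1 (e ▸ W.R.h1.cs)).elim
  · rcases sv_nt W.R.h1 e.symm hf.1 with e | e
    · exact (nE _ W.R.ta e).elim
    · exact (nE _ W.R.tb e).elim
  · exact (nE _ W.R.tb e).elim
  · exact (nA _ W.R.tb e).elim
  · exact (ctf hf.1 (e ▸ W.R.h2.cs)).elim
  · rcases sv_nt W.R.h2 e.symm hf.1 with e | e
    · exact (nE _ W.R.ta e).elim
    · exact (nE _ W.R.tb e).elim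
  · exact (nE _ W.R.ta e).elim
  · exact (nA _ W.R.ta e).elim
  · exact (ctf hf.1 (e ▸ W.R.ha.cz)).elim
  · exact e

/-- the two operations -/
theorem wd_ops : OpU G c H (H ∪ {h, p, q}) ∧ OpN G c (H ∪ {h, p, q}) H' := by
  have fh := wd_fh W F
  have nhs : h ≠ s1 := by
    intro e
    have e1 := sv_rm W.R.h2
    rw [e] at e1
    exact W.R.n12 (rm_s e1)
  have nhs2 : h ≠ s2 := (sv_m W.R.h2).ne.symm
  have hnp : ∀ k, k ∈ ({h, p, q} : Finset V) → k = h ∨ k = p ∨ k = q := by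
    intro k hk
    simpa using hk
  have nha : ∀ x, x = p ∨ x = q → x ≠ a ∧ x ≠ b := by
    intro x hx
    have hadj : G.Adj h x := by
      rcases hx with e | e
      · exact e ▸ sv_a W.hh
      · exact e ▸ sv_b W.hh
    constructor
    · intro e
      rcases sqg_fa W.R fh (e ▸ hadj.symm) with e | e
      · exact nhs e
      · exact nhs2 e
    · intro e
      rcases sqg_fb W.R fh (e ▸ hadj.symm) with e | e
      · exact nhs e
      · exact nhs2 e
  have n1 : v1 ≠ h := by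
    intro e
    have e1 : Rm G c h s1 := e ▸ (sv_rm W.R.h1).symm
    have e2 : Rm G c h s2 := sv_rm W.hh
    exact W.R.ha.n3.xy (rm_u F e1 e2)
  refine ⟨⟨h, s2, p, q, W.hh, W.tp, W.tq, W.Lh, rfl⟩, ?_⟩
  refine ⟨s1, v1, a, b, s2, za, W.R.h1, ?_, W.R.ta, W.R.tb, ?_, ?_, ?_, ?_, ?_⟩
  · exact W.R.ha
  · refine ⟨fun e => ?_, fun w hw e => ?_⟩
    · rcases Finset.mem_union.1 e with e | e
      · exact W.L1.1 e
      · rcases hnp _ e with e | e | e
        · exact nhs e.symm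
        · exact ctf W.tp.1 (e ▸ W.R.h1.cs)
        · exact ctf W.tq.1 (e ▸ W.R.h1.cs)
    · rcases Finset.mem_union.1 e with e | e
      · exact W.L1.2 w hw e
      · rcases (W.R.h1.n3.nb w).1 hw with e1 | e1 | e1 <;> subst e1 <;>
          rcases hnp _ e with e | e | e
        · exact n1 e
        · exact ctf W.tp.1 (e ▸ W.R.h1.cm)
        · exact ctf W.tq.1 (e ▸ W.R.h1.cm)
        · exact ctf W.R.ta.1 (e ▸ W.hh.cs)
        · exact (nha _ (Or.inl rfl)).1 e.symm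
        · exact (nha _ (Or.inr rfl)).1 e.symm
        · exact ctf W.R.tb.1 (e ▸ W.hh.cs)
        · exact (nha _ (Or.inl rfl)).2 e.symm
        · exact (nha _ (Or.inr rfl)).2 e.symm
  · refine ⟨fun e => ?_, fun w hw e => ?_⟩
    · rcases Finset.mem_union.1 e with e | e
      · exact W.La.1 e
      · rcases hnp _ e with e | e | e
        · exact ctf W.R.ta.1 (e ▸ W.hh.cs)
        · exact (nha _ (Or.inl rfl)).1 e.symm
        · exact (nha _ (Or.inr rfl)).1 e.symm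
    · rcases Finset.mem_union.1 e with e | e
      · exact W.La.2 w hw e
      · have cw := tA_nb W.R.ta hw
        rcases hnp _ e with e | e | e
        · subst e
          rcases sqg_fa W.R fh hw with e | e
          · exact nhs e
          · exact nhs2 e
        · exact ctf W.tp.1 (e ▸ cw)
        · exact ctf W.tq.1 (e ▸ cw)
  · intro y hy
    right
    have e : y = h := sv_mate W.R.h2 hy
    subst e
    refine Finset.mem_union_right _ (by simp)
  · intro y hy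
    rcases wd_za W F with e' | ⟨e', e2⟩
    · exact (mu_zero e'.2 y hy).elim
    · left
      subst e'
      exact rm_u F hy (sv_rm W.R.h1).symm
  · rw [W.hH, Finset.union_assoc]

/-- live vertices which die -/
theorem wd_k1 {v f : V} (hv : Live G c H v) (hv' : ¬ Live G c H' v) (hm : Rm G c v f)
    (hf : Clr G H' f) : v ≠ h ∧ (G.Adj p v ∨ G.Adj q v) := by
  have hc' : ¬ Clr G H' v := fun e => hv' ⟨hv.1, e⟩
  rcases wd_fr W F hv.1 hv.2 hc' with e | e | e | e | e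
  · subst e
    exact (wd_dead W F (Or.inr (Or.inr (Or.inl (rm_u F hm (sv_rm W.hh))))) hf).elim
  · subst e
    exact (wd_dead W F (Or.inr (Or.inr (Or.inr (rm_u F hm (sv_rm W.R.h1))))) hf).elim
  · subst e
    exact (wd_dead W F (Or.inl (rm_u F hm (sv_rm W.R.h2))) hf).elim
  · subst e
    exact (wd_dead W F (Or.inr (Or.inl (rm_u F hm (sv_rm W.R.h1).symm))) hf).elim
  · exact e

/-- available vertices of `T1` which die -/
theorem wd_k2 {v f : V} (hv : Avl G c H v) (hv' : ¬ Avl G c H' v) (hm : Rm G c v f)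
    (hf : Clr G H' f) : G.Adj v p ∨ G.Adj v q := by
  have hc' : ¬ Clr G H' v := fun e => hv' ⟨hv.1, e⟩
  rcases wd_T W F hv.1 hv.2 hc' with e | e
  · subst e
    exact (wd_dead W F (Or.inr (Or.inl (rm_u F hm (sv_rm W.R.h1).symm))) hf).elim
  · exact e

/-- available sources which die -/
theorem wd_k3 {v y : V} (hL : L v y) (hv : Avl G c H y) (hv' : ¬ Avl G c H' y) :
    G.Adj y p ∨ G.Adj y q := by
  have hc' : ¬ Clr G H' y := fun e => hv' ⟨hv.1, e⟩
  rcases wd_T W F hv.1 hv.2 hc' with e | e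
  · subst e
    exact (src_mate F hL (sv_rm W.R.h1).symm (sqg_f1 F W.R)).elim
  · exact e

/-- the good slots which are lost -/
theorem wd_lost (hGL : ST_GGL) {f x : V} (hg : GSG G c L H f x) (hn : ¬ GSG G c L H' f x) :
    (f = s1 ∨ f = s2) ∨ f = v1 ∨ (G.Adj x za ∧ x ≠ a) ∨ (f = h ∨ G.Adj p f ∨ G.Adj q f) ∨
    LoG G c L H H' f x := by
  obtain ⟨hfF, hxA, hfx, hcf, hcx⟩ := hg.1
  have nf : ¬ Clr G H' f → (f = s1 ∨ f = s2) ∨ f = v1 ∨ (G.Adj x za ∧ x ≠ a) ∨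
      (f = h ∨ G.Adj p f ∨ G.Adj q f) ∨ LoG G c L H H' f x := by
    intro c1
    rcases wd_fr W F hfF hcf c1 with e | e | e | e | e
    · exact Or.inr (Or.inr (Or.inr (Or.inl (Or.inl e))))
    · exact Or.inl (Or.inl e)
    · exact Or.inl (Or.inr e)
    · exact Or.inr (Or.inl e)
    · exact Or.inr (Or.inr (Or.inr (Or.inl (Or.inr e.2))))
  have nx : ¬ Clr G H' x → (f = s1 ∨ f = s2) ∨ f = v1 ∨ (G.Adj x za ∧ x ≠ a) ∨
      (f = h ∨ G.Adj p f ∨ G.Adj q f) ∨ LoG G c L H H' f x := by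
    intro c2
    rcases wd_A W F hxA hcx c2 with e | e | e | e | e
    · subst e
      exact Or.inr (Or.inr (Or.inr (Or.inl (Or.inr (Or.inl hfx.symm)))))
    · subst e
      exact Or.inr (Or.inr (Or.inr (Or.inl (Or.inr (Or.inr hfx.symm)))))
    · subst e
      exact Or.inl (sqg_fa W.R hfF hfx.symm)
    · subst e
      exact Or.inl (sqg_fb W.R hfF hfx.symm)
    · by_cases hxa : x = a
      · subst hxa
        exact Or.inl (sqg_fa W.R hfF hfx.symm)
      · exact Or.inr (Or.inr (Or.inl ⟨e, hxa⟩))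
  rcases hGL V G c j L H H' F (wd_sub W) f x hg hn with e | e | ⟨t, r, hM, ht, ht', hr⟩ | e
  · exact nf e
  · exact nx e
  · obtain ⟨_, hxt, htf, ht1, htr, hru, hrH, _⟩ := hM
    have hmem := wd_T W F ht.1 ht.2 ht'
    rcases hmem with e | e | e
    · exfalso
      have e2 : r = s1 := rm_u F htr (e ▸ (sv_rm W.R.h1).symm)
      exact hr (wd_mem W (Or.inr (Or.inr (Or.inr (Or.inl e2)))))
    · have e2 : x = p := t1_uA F ht1 hxA W.tp hxt.symm e
      exact nx (fun e3 => e3.1 (wd_mem W (Or.inr (Or.inl e2))))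
    · have e2 : x = q := t1_uA F ht1 hxA W.tq hxt.symm e
      exact nx (fun e3 => e3.1 (wd_mem W (Or.inr (Or.inr (Or.inl e2)))))
  · exact Or.inr (Or.inr (Or.inr (Or.inr e)))

/-- the live vertices which are lost -/
theorem wd_live {f : V} (hg : Live G c H f) (hn : ¬ Live G c H' f) :
    f = h ∨ f = s1 ∨ f = s2 ∨ f = v1 ∨ (f ≠ h ∧ (G.Adj p f ∨ G.Adj q f)) :=
  wd_fr W F hg.1 hg.2 (fun e => hn ⟨hg.1, e⟩)

/-- the good branches which are lost -/
theorem wd_br {u v' x y t t' q0 q' k k' : V} (K : Khb G c u v' x y t t' q0 q' k k')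
    (hl : LS G c H u x) (hk : Clr G H k) (hn : ¬ GB G c H' t) :
    u = v1 ∨ (G.Adj k za ∧ u ≠ s1 ∧ u ≠ v1) ∨ (u = h ∨ G.Adj p u ∨ G.Adj q u) := by
  obtain ⟨hu, ht, ht', hq, hkQ⟩ := khb_data F K
  have n1 : ∀ s1' s2' a' b' v1' v2' za' zb', Sqg G c s1' s2' a' b' v1' v2' za' zb' →
      x ≠ a' := by
    intro s1' s2' a' b' v1' v2' za' zb' S e
    subst e
    exact khb_sqg F S K
  have hus1 : u ≠ s1 := by
    intro e
    subst e
    rcases sv_nt W.R.h1 (sv_a K.hu) K.ta.1 with e | e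
    · exact n1 _ _ _ _ _ _ _ _ W.R e
    · exact n1 _ _ _ _ _ _ _ _ (sqg_t W.R) e
  have hus2 : u ≠ s2 := by
    intro e
    subst e
    rcases sv_nt W.R.h2 (sv_a K.hu) K.ta.1 with e | e
    · exact n1 _ _ _ _ _ _ _ _ W.R e
    · exact n1 _ _ _ _ _ _ _ _ (sqg_t W.R) e
  by_cases e1 : u = v1
  · exact Or.inl e1
  by_cases c1 : Clr G H' u
  · by_cases c2 : Clr G H' x
    · by_cases c3 : Clr G H' k
      · exact (hn ⟨u, v', x, y, t', q0, q', k, k', K, ⟨hu, K.ta, sv_a K.hu, c1, c2⟩, c3⟩).elim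
      · exact Or.inr (Or.inl ⟨wd_Q W F hkQ hk c3, hus1, e1⟩)
    · rcases wd_A W F K.ta hl.2.2.2.2 c2 with e | e | e | e | e
      · exact Or.inr (Or.inr (Or.inr (Or.inl (e ▸ (sv_a K.hu).symm))))
      · exact Or.inr (Or.inr (Or.inr (Or.inr (e ▸ (sv_a K.hu).symm))))
      · exact (n1 _ _ _ _ _ _ _ _ W.R e).elim
      · exact (n1 _ _ _ _ _ _ _ _ (sqg_t W.R) e).elim
      · exfalso
        rcases wd_za W F with e' | ⟨e', e2⟩
        · rcases (K.ha.n3.nb za).1 e with e3 | e3 | e3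
          · exact fr_not_tB hu (e3 ▸ e')
          · exact t1_not_tB ht (e3 ▸ e')
          · exact t1_not_tB ht' (e3 ▸ e')
        · subst e'
          have := t1_uA F e2 K.ta W.R.ta e.symm (av_z W.R.ha).symm
          exact n1 _ _ _ _ _ _ _ _ W.R this
  · rcases wd_fr W F hu hl.2.2.2.1 c1 with e | e | e | e | e
    · exact Or.inr (Or.inr (Or.inl e))
    · exact (hus1 e).elim
    · exact (hus2 e).elim
    · exact (e1 e).elim
    · exact Or.inr (Or.inr (Or.inr e.2))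

end wd

end Pool.Agent.Helper88.MC.GC3
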